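import Pool.Agent.ARS.Defs

set_option autoImplicit false

/-!
# ARV: definitions

`vv δ N T = u ^ (-(1/2 - δ) u)` with `u = log N / log T`.
-/

namespace Pool.Agent.ARV

/-- the saving `u ^ (-(1/2 - δ) u)`, `u = log N / log T` -/
noncomputable def vv (δ : ℝ) (N : ℕ) (T : ℝ) : ℝ :=
  (Real.log N / Real.log T) ^ (-((1 / 2 - δ) * (Real.log N / Real.log T)))

end Pool.Agent.ARV
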