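import Mathlib

set_option autoImplicit false

/-!
# ARV module PSM: the prime sum

Proof.  `p ^ α - 1 ≤ α log p * p ^ α` (`e ^ t - 1 ≤ t e ^ t`, `t = α log p ≥ 0`), so it is enough to
bound `S(z) = ∑_{p < z} log p * p ^ (α - 1)`.  Dyadic blocks: for `2 ^ j ≤ p < 2 ^ (j + 1)` one has
`p ^ (α - 1) ≤ (2 ^ j) ^ (α - 1)` (`α ≤ 1`) and `∑ log p ≤ θ (2 ^ (j + 1)) ≤ log 4 * 2 ^ (j + 1)`
(`Chebyshev.theta_le_log4_mul_x`), so the block contributes at most `2 log 4 (2 ^ α) ^ j`.  By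
induction on `k`: `S(2 ^ k) ≤ 2 log 4 ∑_{j < k} (2 ^ α) ^ j`.  Let `2 ^ (k - 1) < z ≤ 2 ^ k`.  With
`q = 2 ^ α ≥ 1 + α log 2`: `∑_{j < k} q ^ j = (q ^ k - 1) / (q - 1) ≤ q ^ k / (α log 2)` for `α > 0`
(`α = 0`: the left side of the theorem is `0`), and `q ^ k = (2 ^ k) ^ α ≤ (2 z) ^ α ≤ 2 z ^ α`.
Hence `α S(z) ≤ 2 log 4 / log 2 * 2 z ^ α = 8 z ^ α`.  (`C = 8`, or any larger constant.)
-/

namespace Pool.Agent.ARV

/-- the term of the majorising sum -/
private noncomputable def psf (α : ℝ) (p : ℕ) : ℝ :=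
  if p.Prime then Real.log p * (p : ℝ) ^ (α - 1) else 0

private theorem psf_nonneg (α : ℝ) (p : ℕ) : 0 ≤ psf α p := by
  unfold psf
  split_ifs with h
  · have h1 : (1 : ℝ) ≤ p := by exact_mod_cast h.one_lt.le
    have := Real.log_nonneg h1
    positivity
  · exact le_rfl

private theorem psm_term {α : ℝ} {p : ℕ} (hp : p.Prime) :
    ((p : ℝ) ^ α - 1) / p ≤ α * psf α p := by
  have hp0 : (0 : ℝ) < p := by exact_mod_cast hp.pos
  unfold psf
  rw [if_pos hp, Real.rpow_sub_one hp0.ne']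
  set t : ℝ := α * Real.log p with ht
  have h1 : (p : ℝ) ^ α = Real.exp t := by
    rw [Real.rpow_def_of_pos hp0, ht, mul_comm]
  have h2 : Real.exp t - 1 ≤ t * Real.exp t := by
    have h3 : 1 - t ≤ Real.exp (-t) := by
      have := Real.add_one_le_exp (-t)
      linarith
    have h4 : (1 - t) * Real.exp t ≤ Real.exp (-t) * Real.exp t := by
      gcongr
    rw [← Real.exp_add, neg_add_cancel, Real.exp_zero] at h4
    linarith
  rw [h1]
  calc (Real.exp t - 1) / p ≤ (t * Real.exp t) / p := by gcongr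
    _ = α * (Real.log p * (Real.exp t / p)) := by
      rw [ht]
      ring

private theorem psm_block {α : ℝ} (hα1 : α ≤ 1) (k : ℕ) :
    ∑ p ∈ Finset.Ico (2 ^ k) (2 ^ (k + 1)), psf α p ≤
      2 * Real.log 4 * ((2 : ℝ) ^ α) ^ k := by
  have h2k : (0 : ℝ) < (2 : ℝ) ^ k := by positivity
  have h1 : ∑ p ∈ Finset.Ico (2 ^ k) (2 ^ (k + 1)), psf α p ≤
      ∑ p ∈ Finset.Ico (2 ^ k) (2 ^ (k + 1)),
        ((2 : ℝ) ^ k) ^ (α - 1) * (if Nat.Prime p then Real.log (p : ℝ) else 0) := by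
    refine Finset.sum_le_sum fun p hp => ?_
    obtain ⟨hp1, hp2⟩ := Finset.mem_Ico.1 hp
    unfold psf
    split_ifs with h
    · have h3 : ((2 : ℝ) ^ k) ≤ p := by exact_mod_cast hp1
      have h4 : (p : ℝ) ^ (α - 1) ≤ ((2 : ℝ) ^ k) ^ (α - 1) :=
        Real.rpow_le_rpow_of_nonpos h2k h3 (by linarith)
      have h5 : 0 ≤ Real.log p := Real.log_nonneg (by exact_mod_cast h.one_lt.le)
      rw [mul_comm]
      gcongr
    · simp
  refine h1.trans ?_
  rw [← Finset.mul_sum]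
  have h6 : ∑ p ∈ Finset.Ico (2 ^ k) (2 ^ (k + 1)), (if Nat.Prime p then Real.log (p : ℝ) else 0) ≤
      Chebyshev.theta ((2 : ℝ) ^ (k + 1)) := by
    rw [Chebyshev.theta, Finset.sum_filter]
    refine Finset.sum_le_sum_of_subset_of_nonneg ?_ ?_
    · intro p hp
      obtain ⟨hp1, hp2⟩ := Finset.mem_Ico.1 hp
      rw [Finset.mem_Ioc]
      have h7 : 0 < 2 ^ k := by positivity
      refine ⟨by omega, Nat.le_floor ?_⟩
      exact_mod_cast hp2.le
    · intro p _ _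
      split_ifs with h
      · exact Real.log_nonneg (by exact_mod_cast h.one_lt.le)
      · exact le_rfl
  have h8 := Chebyshev.theta_le_log4_mul_x (x := (2 : ℝ) ^ (k + 1)) (by positivity)
  have h9 : ((2 : ℝ) ^ k) ^ (α - 1) * (2 : ℝ) ^ k = ((2 : ℝ) ^ α) ^ k := by
    rw [Real.rpow_sub_one h2k.ne', div_mul_cancel₀ _ h2k.ne', ← Real.rpow_natCast,
      ← Real.rpow_natCast, ← Real.rpow_mul (by norm_num), ← Real.rpow_mul (by norm_num), mul_comm]
  calc ((2 : ℝ) ^ k) ^ (α - 1) *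
        ∑ p ∈ Finset.Ico (2 ^ k) (2 ^ (k + 1)), (if Nat.Prime p then Real.log (p : ℝ) else 0)
      ≤ ((2 : ℝ) ^ k) ^ (α - 1) * (Real.log 4 * (2 : ℝ) ^ (k + 1)) := by
        gcongr
        exact h6.trans h8
    _ = 2 * Real.log 4 * (((2 : ℝ) ^ k) ^ (α - 1) * (2 : ℝ) ^ k) := by
        rw [pow_succ]
        ring
    _ = 2 * Real.log 4 * ((2 : ℝ) ^ α) ^ k := by rw [h9]

private theorem psm_dyadic {α : ℝ} (hα : 0 ≤ α) (hα1 : α ≤ 1) (k : ℕ) :
    α * ∑ p ∈ Finset.range (2 ^ k), psf α p ≤ 4 * (((2 : ℝ) ^ α) ^ k - 1) := by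
  induction k with
  | zero =>
    have h0 : ∀ p ∈ Finset.range (2 ^ 0), psf α p = 0 := by
      intro p hp
      rw [pow_zero, Finset.mem_range] at hp
      unfold psf
      rw [if_neg]
      intro h
      have := h.two_le
      omega
    rw [Finset.sum_eq_zero h0]
    simp
  | succ k ih =>
    have h1 : 2 ^ k ≤ 2 ^ (k + 1) := Nat.pow_le_pow_right (by norm_num) (Nat.le_succ k)
    rw [← Finset.sum_range_add_sum_Ico _ h1, mul_add]
    have h2 := psm_block hα1 k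
    set q : ℝ := (2 : ℝ) ^ α with hq
    have hq0 : 0 < q := by positivity
    have h3 : 1 + α * Real.log 2 ≤ q := by
      rw [hq, Real.rpow_def_of_pos (by norm_num)]
      have := Real.add_one_le_exp (Real.log 2 * α)
      linarith
    have hl4 : Real.log 4 = 2 * Real.log 2 := by
      rw [show (4 : ℝ) = 2 ^ (2 : ℕ) by norm_num, Real.log_pow]
      norm_num
    have hqk : 0 < q ^ k := by positivity
    have h4 : α * ∑ p ∈ Finset.Ico (2 ^ k) (2 ^ (k + 1)), psf α p ≤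
        α * (2 * Real.log 4 * q ^ k) := mul_le_mul_of_nonneg_left h2 hα
    have h5 : α * (2 * Real.log 4 * q ^ k) ≤ 4 * (q - 1) * q ^ k := by
      rw [hl4]
      have : α * Real.log 2 ≤ q - 1 := by linarith
      nlinarith
    have h6 : q ^ (k + 1) = q ^ k * q := pow_succ q k
    rw [h6]
    nlinarith

theorem psm : ∃ C : ℝ, 0 < C ∧ ∀ (z : ℕ) (α : ℝ), 2 ≤ z → 0 ≤ α → α ≤ 1 / 4 →
    ∑ p ∈ (Finset.range z).filter Nat.Prime, ((p : ℝ) ^ α - 1) / p ≤ C * (z : ℝ) ^ α := by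
  refine ⟨8, by norm_num, ?_⟩
  intro z α hz hα hα4
  have hα1 : α ≤ 1 := by linarith
  have hz0 : (0 : ℝ) < z := by exact_mod_cast (by omega : 0 < z)
  have h1 : ∑ p ∈ (Finset.range z).filter Nat.Prime, ((p : ℝ) ^ α - 1) / p ≤
      α * ∑ p ∈ Finset.range z, psf α p := by
    rw [Finset.mul_sum, Finset.sum_filter]
    refine Finset.sum_le_sum fun p _ => ?_
    split_ifs with h
    · exact psm_term h
    · exact mul_nonneg hα (psf_nonneg α p)
  set k : ℕ := Nat.clog 2 z with hk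
  have hzk : z ≤ 2 ^ k := Nat.le_pow_clog (by norm_num) z
  have hkz : 2 ^ k ≤ 2 * z := by
    have hk0 : 0 < k := Nat.clog_pos (by norm_num) hz
    have h2 : 2 ^ k.pred < z := Nat.pow_pred_clog_lt_self (by norm_num) hz
    have h3 : 2 ^ k = 2 * 2 ^ k.pred := by
      rw [← pow_succ']
      congr 1
      have := Nat.succ_pred_eq_of_pos hk0
      omega
    omega
  have h2 : α * ∑ p ∈ Finset.range z, psf α p ≤ α * ∑ p ∈ Finset.range (2 ^ k), psf α p := by
    refine mul_le_mul_of_nonneg_left ?_ hα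
    refine Finset.sum_le_sum_of_subset_of_nonneg ?_ fun p _ _ => psf_nonneg α p
    exact Finset.range_subset_range.2 hzk
  have h3 := psm_dyadic hα hα1 k
  have h4 : ((2 : ℝ) ^ α) ^ k ≤ 2 * (z : ℝ) ^ α := by
    have h5 : ((2 : ℝ) ^ α) ^ k = ((2 : ℝ) ^ k) ^ α := by
      rw [← Real.rpow_natCast, ← Real.rpow_natCast, ← Real.rpow_mul (by norm_num),
        ← Real.rpow_mul (by norm_num), mul_comm]
    have h6 : ((2 : ℝ) ^ k) ≤ 2 * z := by exact_mod_cast hkz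
    have h7 : (2 : ℝ) ^ α ≤ 2 := by
      calc (2 : ℝ) ^ α ≤ (2 : ℝ) ^ (1 : ℝ) :=
            Real.rpow_le_rpow_of_exponent_le (by norm_num) hα1
        _ = 2 := Real.rpow_one 2
    rw [h5]
    calc ((2 : ℝ) ^ k) ^ α ≤ (2 * (z : ℝ)) ^ α := Real.rpow_le_rpow (by positivity) h6 hα
      _ = (2 : ℝ) ^ α * (z : ℝ) ^ α := Real.mul_rpow (by norm_num) hz0.le
      _ ≤ 2 * (z : ℝ) ^ α := by gcongr
  linarith

end Pool.Agent.ARV
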