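import Pool.Agent.ARS.Nsb
import Pool.Agent.ARV.Psm

set_option autoImplicit false

/-!
# ARV module SHD: the logarithmic mean value of `hh` without the hypothesis `α log z ≤ 1`

Copy of `Pool.Agent.ARS.sum_hh_div` (`ARS/Nsb.lean`; its private lemmas `rf`, `rf_apply`,
`rf_nonneg`, `rf_prime_le`, `factor_le` have to be copied too).  The only change: the bound
`h4 : ∑ p ∈ primesBelow (N+1), 5/2 * (rf z α p - 1/p) ≤ 15/2` is replaced by
`≤ 5/2 * C₁ * z ^ α`, because `rf z α p - 1/p` is `(p ^ α - 1) / p` for `p < z` and `0` for `p ≥ z`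
(`hh_prime`), and `∑_{p < z} (p ^ α - 1) / p ≤ C₁ z ^ α` (`psm`, stub in `ARV/Psm.lean`).  Final
constant `max (C) (5/2 C₁)` (with `C` from `mertens_product`).
-/

namespace Pool.Agent.ARV

open Pool.Agent.ARS

/-- `hh z α n / n` as a completely multiplicative function -/
private noncomputable def rf (z : ℕ) (α : ℝ) : ℕ →* ℝ where
  toFun n := if n = 0 then 0 else hh z α n / n
  map_one' := by simp [hh_one]
  map_mul' a b := by
    by_cases ha : a = 0
    · simp [ha]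
    by_cases hb : b = 0
    · simp [hb]
    rw [if_neg (mul_ne_zero ha hb), if_neg ha, if_neg hb, hh_mul z α ha hb, Nat.cast_mul]
    have ha' : (a : ℝ) ≠ 0 := by exact_mod_cast ha
    have hb' : (b : ℝ) ≠ 0 := by exact_mod_cast hb
    field_simp

private lemma rf_apply (z : ℕ) (α : ℝ) {n : ℕ} (hn : n ≠ 0) : rf z α n = hh z α n / n := if_neg hn

private lemma rf_nonneg (z : ℕ) (α : ℝ) (hα : 0 ≤ α) (n : ℕ) : 0 ≤ rf z α n := by
  by_cases hn : n = 0
  · exact le_of_eq (if_pos hn).symm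
  · rw [rf_apply z α hn]
    have := hh_one_le z α hα n
    positivity

private lemma rf_prime_le (z : ℕ) (α : ℝ) (hα0 : 0 ≤ α) (hα : α ≤ 1 / 4) {p : ℕ} (hp : p.Prime) :
    rf z α p ≤ 3 / 5 := by
  have hp2 : (2 : ℝ) ≤ p := by exact_mod_cast hp.two_le
  have hp0 : (0 : ℝ) < p := by linarith
  rw [rf_apply z α hp.ne_zero]
  have h1 : hh z α p ≤ (p : ℝ) ^ α := hh_le z α hα0 hp.ne_zero
  have h2 : (p : ℝ) ^ α / p = (p : ℝ) ^ (α - 1) := by
    rw [Real.rpow_sub_one hp0.ne']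
  have h3 : (p : ℝ) ^ (α - 1) ≤ (2 : ℝ) ^ (α - 1) :=
    Real.rpow_le_rpow_of_nonpos (by norm_num) hp2 (by linarith)
  have h4 : (2 : ℝ) ^ (α - 1) ≤ (2 : ℝ) ^ (-(3 / 4) : ℝ) :=
    Real.rpow_le_rpow_of_exponent_le (by norm_num) (by linarith)
  have h5 : (2 : ℝ) ^ (-(3 / 4) : ℝ) ≤ 3 / 5 := by
    have h6 : ((2 : ℝ) ^ (-(3 / 4) : ℝ)) ^ 4 = 1 / 8 := by
      rw [← Real.rpow_natCast, ← Real.rpow_mul (by norm_num)]
      norm_num
    by_contra h
    push Not at h
    have h7 : (3 / 5 : ℝ) ^ 4 < ((2 : ℝ) ^ (-(3 / 4) : ℝ)) ^ 4 :=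
      pow_lt_pow_left₀ h (by norm_num) (by norm_num)
    rw [h6] at h7
    norm_num at h7
  calc hh z α p / p ≤ (p : ℝ) ^ α / p := by gcongr
    _ = (p : ℝ) ^ (α - 1) := h2
    _ ≤ 3 / 5 := h3.trans (h4.trans h5)

private lemma factor_le {t u : ℝ} (hut : u ≤ t) (ht : t ≤ 3 / 5) (hu : 0 ≤ u) :
    (1 - t)⁻¹ ≤ (1 - u)⁻¹ * Real.exp (5 / 2 * (t - u)) := by
  have h1 : 0 < 1 - t := by linarith
  have h2 : 0 < 1 - u := by linarith
  have h3 : 1 + 5 / 2 * (t - u) ≤ Real.exp (5 / 2 * (t - u)) := by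
    have := Real.add_one_le_exp (5 / 2 * (t - u))
    linarith
  have h4 : (1 - t)⁻¹ ≤ (1 - u)⁻¹ * (1 + 5 / 2 * (t - u)) := by
    rw [inv_eq_one_div, inv_eq_one_div, div_mul_eq_mul_div, one_mul, div_le_div_iff₀ h1 h2]
    nlinarith [mul_nonneg (sub_nonneg.2 hut) (by linarith : (0 : ℝ) ≤ 3 / 5 - t)]
  exact h4.trans (mul_le_mul_of_nonneg_left h3 (by positivity))

theorem sum_hh_div_u : ∃ C : ℝ, 0 < C ∧ ∀ (N z : ℕ) (α : ℝ), 2 ≤ z → z ≤ N → 0 ≤ α → α ≤ 1 / 4 →
    ∑ m ∈ Finset.Icc 1 N, hh z α m / m ≤ C * Real.log N * Real.exp (C * (z : ℝ) ^ α) := by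
  obtain ⟨C, hC, hMer⟩ := Pool.Agent.Helper76.OB.mertens_product
  obtain ⟨C₁, hC₁, hP⟩ := psm
  refine ⟨max C (5 / 2 * C₁), lt_of_lt_of_le hC (le_max_left _ _),
    fun N z α hz hzN hα0 hα => ?_⟩
  have hlt : ∀ {p : ℕ}, p.Prime → ‖rf z α p‖ < 1 := by
    intro p hp
    rw [Real.norm_of_nonneg (rf_nonneg z α hα0 p)]
    have := rf_prime_le z α hα0 hα hp
    linarith
  have hsum := (EulerProduct.summable_and_hasSum_smoothNumbers_prod_primesBelow_geometric
    (f := rf z α) hlt (N + 1)).2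
  have hsum2 : HasSum ((Nat.smoothNumbers (N + 1)).indicator (fun n => rf z α n))
      (∏ p ∈ (N + 1).primesBelow, (1 - rf z α p)⁻¹) := by
    rw [← hasSum_subtype_iff_indicator]
    exact hsum
  have h1 : ∑ m ∈ Finset.Icc 1 N, hh z α m / m ≤ ∏ p ∈ (N + 1).primesBelow, (1 - rf z α p)⁻¹ := by
    have h2 : ∑ m ∈ Finset.Icc 1 N, hh z α m / m = ∑ m ∈ Finset.Icc 1 N,
        (Nat.smoothNumbers (N + 1)).indicator (fun n => rf z α n) m := by
      refine Finset.sum_congr rfl fun m hm => ?_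
      obtain ⟨hm1, hmN⟩ := Finset.mem_Icc.1 hm
      rw [Set.indicator_of_mem, rf_apply z α (by omega)]
      rw [Nat.mem_smoothNumbers]
      refine ⟨by omega, fun p hp => ?_⟩
      have := Nat.le_of_mem_primeFactorsList hp
      omega
    rw [h2]
    refine sum_le_hasSum _ (fun i _ => ?_) hsum2
    exact Set.indicator_nonneg (fun n _ => rf_nonneg z α hα0 n) _
  refine h1.trans ?_
  have hf0 : ∀ p ∈ (N + 1).primesBelow, 1 / (p : ℝ) ≤ rf z α p := by
    intro p hp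
    have hpp := Nat.prime_of_mem_primesBelow hp
    rw [rf_apply z α hpp.ne_zero]
    have := hh_one_le z α hα0 p
    gcongr
  have h2 : ∏ p ∈ (N + 1).primesBelow, (1 - rf z α p)⁻¹ ≤
      ∏ p ∈ (N + 1).primesBelow, ((1 - 1 / (p : ℝ))⁻¹ *
        Real.exp (5 / 2 * (rf z α p - 1 / (p : ℝ)))) := by
    refine Finset.prod_le_prod (fun p hp => ?_) fun p hp => ?_
    · have hpp := Nat.prime_of_mem_primesBelow hp
      have := rf_prime_le z α hα0 hα hpp
      exact inv_nonneg.2 (by linarith)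
    · have hpp := Nat.prime_of_mem_primesBelow hp
      exact factor_le (hf0 p hp) (rf_prime_le z α hα0 hα hpp) (by positivity)
  refine h2.trans ?_
  rw [Finset.prod_mul_distrib, ← Real.exp_sum]
  have hPR : (N + 1).primesBelow = Pool.Agent.Helper76.OB.PR 1 N := by
    ext p
    rw [Nat.mem_primesBelow, Pool.Agent.Helper76.OB.PR, Finset.mem_filter, Finset.mem_Ioc]
    constructor
    · rintro ⟨ha, hb⟩
      exact ⟨⟨hb.one_lt, by omega⟩, hb⟩
    · rintro ⟨⟨ha, hb⟩, hc⟩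
      exact ⟨by omega, hc⟩
  have h3 : ∏ p ∈ (N + 1).primesBelow, (1 - 1 / (p : ℝ))⁻¹ ≤ C * Real.log N := by
    rw [hPR]
    exact hMer N (by omega)
  have h4 : ∑ p ∈ (N + 1).primesBelow, 5 / 2 * (rf z α p - 1 / (p : ℝ)) ≤
      5 / 2 * C₁ * (z : ℝ) ^ α := by
    have h5 : ∀ p ∈ (N + 1).primesBelow, rf z α p - 1 / (p : ℝ) =
        if p < z then ((p : ℝ) ^ α - 1) / p else 0 := by
      intro p hp
      have hpp := Nat.prime_of_mem_primesBelow hp
      rw [rf_apply z α hpp.ne_zero, hh_prime z α hpp]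
      by_cases hpz : p < z
      · rw [if_pos hpz, if_pos hpz, ← sub_div]
      · rw [if_neg hpz, if_neg hpz, sub_self]
    rw [← Finset.mul_sum]
    have h6 : ∑ p ∈ (N + 1).primesBelow, (rf z α p - 1 / (p : ℝ)) ≤ C₁ * (z : ℝ) ^ α := by
      calc ∑ p ∈ (N + 1).primesBelow, (rf z α p - 1 / (p : ℝ))
          = ∑ p ∈ (N + 1).primesBelow, (if p < z then ((p : ℝ) ^ α - 1) / p else 0) :=
            Finset.sum_congr rfl h5
        _ = ∑ p ∈ (N + 1).primesBelow.filter (fun p => p < z), ((p : ℝ) ^ α - 1) / p := by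
            rw [Finset.sum_filter]
        _ ≤ ∑ p ∈ (Finset.range z).filter Nat.Prime, ((p : ℝ) ^ α - 1) / p := by
            refine Finset.sum_le_sum_of_subset_of_nonneg (fun p hp => ?_) fun p hp _ => ?_
            · rw [Finset.mem_filter, Nat.mem_primesBelow] at hp
              rw [Finset.mem_filter, Finset.mem_range]
              exact ⟨hp.2, hp.1.2⟩
            · have hp1 : (1 : ℝ) ≤ p := by
                exact_mod_cast (Finset.mem_filter.1 hp).2.one_lt.le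
              have := Real.one_le_rpow hp1 hα0
              exact div_nonneg (by linarith) (by linarith)
        _ ≤ C₁ * (z : ℝ) ^ α := hP z α hz hα0 hα
    calc 5 / 2 * ∑ p ∈ (N + 1).primesBelow, (rf z α p - 1 / (p : ℝ))
        ≤ 5 / 2 * (C₁ * (z : ℝ) ^ α) := by linarith
      _ = 5 / 2 * C₁ * (z : ℝ) ^ α := by ring
  have hlogN : 0 ≤ Real.log N := Real.log_natCast_nonneg N
  have hz0 : 0 ≤ (z : ℝ) ^ α := by positivity
  calc (∏ p ∈ (N + 1).primesBelow, (1 - 1 / (p : ℝ))⁻¹) *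
        Real.exp (∑ p ∈ (N + 1).primesBelow, 5 / 2 * (rf z α p - 1 / (p : ℝ)))
      ≤ (C * Real.log N) * Real.exp (5 / 2 * C₁ * (z : ℝ) ^ α) := by
        have h7 := Real.exp_le_exp.2 h4
        have h8 : 0 ≤ C * Real.log N := by positivity
        exact mul_le_mul h3 h7 (Real.exp_pos _).le h8
    _ ≤ (max C (5 / 2 * C₁) * Real.log N) *
        Real.exp (max C (5 / 2 * C₁) * (z : ℝ) ^ α) := by
        have h9 : C ≤ max C (5 / 2 * C₁) := le_max_left _ _
        have h10 : 5 / 2 * C₁ ≤ max C (5 / 2 * C₁) := le_max_right _ _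
        have h11 : Real.exp (5 / 2 * C₁ * (z : ℝ) ^ α) ≤
            Real.exp (max C (5 / 2 * C₁) * (z : ℝ) ^ α) :=
          Real.exp_le_exp.2 (mul_le_mul_of_nonneg_right h10 hz0)
        have h12 : C * Real.log N ≤ max C (5 / 2 * C₁) * Real.log N :=
          mul_le_mul_of_nonneg_right h9 hlogN
        exact mul_le_mul h12 h11 (Real.exp_pos _).le ((by positivity : 0 ≤ C * Real.log N).trans h12)

end Pool.Agent.ARV
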