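import Pool.Agent.ARS.Nsc

set_option autoImplicit false

/-!
# ARV module SHL: the mean value of `hh` with weight `log`, without the hypothesis `α log z ≤ 1`

Copy of `Pool.Agent.ARS.sum_hh_log` (`ARS/Nsc.lean`; the private lemma `nsc_D` has to be copied).
Changes: for a prime `p < z`, `hh p = p ^ α ≤ z ^ α` (in the place of `≤ exp 1`; `1 ≤ z ^ α`), so
`∑_{d ≤ D} hh d Λ(d) ≤ z ^ α log 4 D + 8 D ≤ 20 z ^ α D`.
-/

namespace Pool.Agent.ARV

open Pool.Agent.ARS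

open ArithmeticFunction in
private lemma shl_D (D z : ℕ) (α : ℝ) (hD : 1 ≤ D) (hz : 2 ≤ z) (hα : 0 ≤ α) (hα4 : α ≤ 1 / 4) :
    ∑ d ∈ Finset.Ioc 0 D, hh z α d * vonMangoldt d ≤ 20 * (z : ℝ) ^ α * D := by
  have hD0 : (0 : ℝ) < D := by exact_mod_cast (by omega : 0 < D)
  have hD1 : (1 : ℝ) ≤ D := by exact_mod_cast hD
  have hz0 : (0 : ℝ) < z := by exact_mod_cast (by omega : 0 < z)
  have hzα : 1 ≤ (z : ℝ) ^ α := Real.one_le_rpow (by exact_mod_cast (by omega : 1 ≤ z)) hα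
  have h1 : ∑ d ∈ Finset.Ioc 0 D, hh z α d * vonMangoldt d =
      ∑ d ∈ (Finset.Ioc 0 D).filter Nat.Prime, hh z α d * vonMangoldt d +
      ∑ d ∈ (Finset.Ioc 0 D).filter (fun n => ¬ n.Prime), hh z α d * vonMangoldt d :=
    (Finset.sum_filter_add_sum_filter_not _ _ _).symm
  have hprime : ∑ d ∈ (Finset.Ioc 0 D).filter Nat.Prime, hh z α d * vonMangoldt d ≤
      (z : ℝ) ^ α * (Real.log 4 * D) := by
    have h2 := Chebyshev.theta_le_log4_mul_x (x := (D : ℝ)) (by positivity)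
    unfold Chebyshev.theta at h2
    rw [Nat.floor_natCast] at h2
    refine le_trans ?_ (mul_le_mul_of_nonneg_left h2 (by positivity))
    rw [Finset.mul_sum]
    refine Finset.sum_le_sum fun p hp => ?_
    have hpp : p.Prime := (Finset.mem_filter.1 hp).2
    rw [vonMangoldt_apply_prime hpp, hh_prime z α hpp]
    have hlog : 0 ≤ Real.log p := Real.log_nonneg (by exact_mod_cast hpp.one_lt.le)
    refine mul_le_mul_of_nonneg_right ?_ hlog
    split_ifs with hpz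
    · have hp0 : (0 : ℝ) < p := by exact_mod_cast hpp.pos
      exact Real.rpow_le_rpow hp0.le (by exact_mod_cast hpz.le) hα
    · exact hzα
  have hnot : ∑ d ∈ (Finset.Ioc 0 D).filter (fun n => ¬ n.Prime), hh z α d * vonMangoldt d ≤
      8 * D := by
    have h2 := Chebyshev.psi_sub_theta_le (x := (D : ℝ)) hD1
    rw [Chebyshev.psi_sub_theta_eq_sum_not_prime, Nat.floor_natCast] at h2
    have h3 : ∑ d ∈ (Finset.Ioc 0 D).filter (fun n => ¬ n.Prime), hh z α d * vonMangoldt d ≤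
        (D : ℝ) ^ (1 / 4 : ℝ) *
          ∑ d ∈ (Finset.Ioc 0 D).filter (fun n => ¬ n.Prime), vonMangoldt d := by
      rw [Finset.mul_sum]
      refine Finset.sum_le_sum fun d hd => ?_
      have hd' := (Finset.mem_filter.1 hd).1
      rw [Finset.mem_Ioc] at hd'
      have hd1 : (1 : ℝ) ≤ d := by exact_mod_cast hd'.1
      refine mul_le_mul_of_nonneg_right ?_ vonMangoldt_nonneg
      calc hh z α d ≤ (d : ℝ) ^ α := hh_le z α hα (by omega)
        _ ≤ (d : ℝ) ^ (1 / 4 : ℝ) := Real.rpow_le_rpow_of_exponent_le hd1 hα4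
        _ ≤ (D : ℝ) ^ (1 / 4 : ℝ) :=
            Real.rpow_le_rpow (by positivity) (by exact_mod_cast hd'.2) (by norm_num)
    have h4 : Real.log D ≤ 4 * (D : ℝ) ^ (1 / 4 : ℝ) := by
      have h5 := Real.log_le_rpow_div hD0.le (show (0 : ℝ) < 1 / 4 by norm_num)
      linarith
    calc _ ≤ (D : ℝ) ^ (1 / 4 : ℝ) *
          ∑ d ∈ (Finset.Ioc 0 D).filter (fun n => ¬ n.Prime), vonMangoldt d := h3
      _ ≤ (D : ℝ) ^ (1 / 4 : ℝ) * (2 * √(D : ℝ) * Real.log D) := by gcongr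
      _ ≤ (D : ℝ) ^ (1 / 4 : ℝ) * (2 * √(D : ℝ) * (4 * (D : ℝ) ^ (1 / 4 : ℝ))) := by gcongr
      _ = 8 * ((D : ℝ) ^ (1 / 4 : ℝ) * (D : ℝ) ^ (1 / 4 : ℝ) * (D : ℝ) ^ (1 / 2 : ℝ)) := by
          rw [Real.sqrt_eq_rpow]
          ring
      _ = 8 * D := by
          rw [← Real.rpow_add hD0, ← Real.rpow_add hD0]
          norm_num
  have hl4 : Real.log 4 ≤ 2 := by
    have : Real.log 4 = 2 * Real.log 2 := by
      rw [show (4 : ℝ) = 2 ^ 2 by norm_num, Real.log_pow]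
      norm_num
    rw [this]
    linarith [Real.log_two_lt_d9]
  have hl40 : 0 ≤ Real.log 4 := Real.log_nonneg (by norm_num)
  rw [h1]
  have h6 : (z : ℝ) ^ α * (Real.log 4 * D) ≤ (z : ℝ) ^ α * (2 * D) := by gcongr
  have h7 : 1 * (D : ℝ) ≤ (z : ℝ) ^ α * D := mul_le_mul_of_nonneg_right hzα hD0.le
  have h8 : 20 * (z : ℝ) ^ α * D = 20 * ((z : ℝ) ^ α * D) := by ring
  have h9 : (z : ℝ) ^ α * (2 * D) = 2 * ((z : ℝ) ^ α * D) := by ring
  rw [h8]
  linarith

open ArithmeticFunction in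
theorem sum_hh_log_u : ∃ C : ℝ, 0 < C ∧ ∀ (N z : ℕ) (α : ℝ), 1 ≤ N → 2 ≤ z → 0 ≤ α → α ≤ 1 / 4 →
    ∑ n ∈ Finset.Icc 1 N, hh z α n * Real.log n ≤
      C * (z : ℝ) ^ α * N * ∑ m ∈ Finset.Icc 1 N, hh z α m / m := by
  refine ⟨20, by norm_num, fun N z α hN hz hα hα4 => ?_⟩
  set F : ArithmeticFunction ℝ := ⟨fun n => if n = 0 then 0 else hh z α n, by simp⟩ with hF
  set G : ArithmeticFunction ℝ := ⟨fun n => if n = 0 then 0 else hh z α n * vonMangoldt n,
    by simp⟩ with hG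
  have hFn : ∀ n : ℕ, n ≠ 0 → F n = hh z α n := by
    intro n hn
    change (if n = 0 then 0 else hh z α n) = _
    rw [if_neg hn]
  have hGn : ∀ n : ℕ, n ≠ 0 → G n = hh z α n * vonMangoldt n := by
    intro n hn
    change (if n = 0 then 0 else hh z α n * vonMangoldt n) = _
    rw [if_neg hn]
  have hIcc : Finset.Icc 1 N = Finset.Ioc 0 N := by
    ext n
    rw [Finset.mem_Icc, Finset.mem_Ioc]
    omega
  have h1 : ∀ n ∈ Finset.Ioc 0 N, hh z α n * Real.log n = (F * G) n := by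
    intro n hn
    have hn0 : n ≠ 0 := by
      rw [Finset.mem_Ioc] at hn
      omega
    rw [mul_apply, ← vonMangoldt_sum, Finset.mul_sum]
    have h2 := Nat.sum_divisorsAntidiagonal' (n := n) (fun _ b => hh z α n * vonMangoldt b)
    rw [← h2]
    refine Finset.sum_congr rfl fun ab hab => ?_
    rw [Nat.mem_divisorsAntidiagonal] at hab
    have ha : ab.1 ≠ 0 := by
      rintro h0
      rw [h0, zero_mul] at hab
      exact hn0 hab.1.symm
    have hb : ab.2 ≠ 0 := by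
      rintro h0
      rw [h0, mul_zero] at hab
      exact hn0 hab.1.symm
    rw [hFn _ ha, hGn _ hb, ← hab.1, hh_mul z α ha hb]
    ring
  rw [hIcc, Finset.sum_congr rfl h1, sum_Ioc_mul_eq_sum_sum, Finset.mul_sum]
  refine Finset.sum_le_sum fun m hm => ?_
  rw [Finset.mem_Ioc] at hm
  have hm0 : (0 : ℝ) < m := by exact_mod_cast hm.1
  rw [hFn m (by omega)]
  have hD : 1 ≤ N / m := (Nat.one_le_div_iff hm.1).2 hm.2
  have h3 : ∑ d ∈ Finset.Ioc 0 (N / m), G d ≤ 20 * (z : ℝ) ^ α * ((N / m : ℕ) : ℝ) := by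
    refine le_trans (le_of_eq (Finset.sum_congr rfl fun d hd => ?_)) (shl_D (N / m) z α hD hz hα hα4)
    rw [Finset.mem_Ioc] at hd
    exact hGn d (by omega)
  have h4 : ((N / m : ℕ) : ℝ) ≤ (N : ℝ) / m := Nat.cast_div_le
  have h5 : 0 ≤ hh z α m := le_trans zero_le_one (hh_one_le z α hα m)
  calc hh z α m * ∑ d ∈ Finset.Ioc 0 (N / m), G d ≤
        hh z α m * (20 * (z : ℝ) ^ α * ((N : ℝ) / m)) := by
        refine mul_le_mul_of_nonneg_left (h3.trans ?_) h5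
        exact mul_le_mul_of_nonneg_left h4 (by positivity)
    _ = 20 * (z : ℝ) ^ α * N * (hh z α m / m) := by ring

end Pool.Agent.ARV
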