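import Pool.Agent.ARS.Nsd
import Pool.Agent.ARV.Shd
import Pool.Agent.ARV.Shl

set_option autoImplicit false

/-!
# ARV module NSU: the number of nearly smooth numbers

As in `ARS/Nsd.lean` (`sum_hh`, `near_smooth_big`), with `sum_hh_div_u` (`ARV/Shd.lean`) and
`sum_hh_log_u` (`ARV/Shl.lean`), both stubs.

First `∑_{n ≤ N} hh n ≤ C N exp (C z ^ α)`: by the two stubs
`∑_{n ≤ N} hh n log n ≤ C₂ z ^ α N (C₁ log N exp (C₁ z ^ α)) ≤ C₁ C₂ N log N exp ((C₁ + 1) z ^ α)`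
(`t ≤ exp t`), the `n` with `n ^ 2 > N` have `log n ≥ log N / 2`, the `n` with `n ^ 2 ≤ N` contribute
at most `N` as in `sum_hh` (`hh n ≤ n ^ α ≤ N ^ (1/4)`).
Then every element of `E` has `hh m ≥ (N / z ^ K) ^ α = N ^ α / (z ^ α) ^ K` (`hh_near`), so
`|E| N ^ α / (z ^ α) ^ K ≤ C N exp (C z ^ α)`.
-/

namespace Pool.Agent.ARV

open Pool.Agent.ARS


/-- the mean value of `hh` -/
theorem sum_hh_u : ∃ C : ℝ, 0 < C ∧ ∀ (N z : ℕ) (α : ℝ), 2 ≤ z → z ≤ N → 0 ≤ α → α ≤ 1 / 4 →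
    ∑ n ∈ Finset.Icc 1 N, hh z α n ≤ C * N * Real.exp (C * (z : ℝ) ^ α) := by
  obtain ⟨C1, hC1, h1⟩ := sum_hh_div_u
  obtain ⟨C2, hC2, h2⟩ := sum_hh_log_u
  refine ⟨2 * C2 * C1 + 1 + C1, by positivity, fun N z α hz hzN hα0 hα => ?_⟩
  have hN2 : 2 ≤ N := by omega
  have hN1 : (1 : ℝ) ≤ N := by exact_mod_cast (by omega : 1 ≤ N)
  have hN0 : (0 : ℝ) < N := by linarith
  have hlog : 0 < Real.log N := Real.log_pos (by exact_mod_cast (by omega : 1 < N))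
  have hz0 : 0 ≤ (z : ℝ) ^ α := by positivity
  have h3 := h1 N z α hz hzN hα0 hα
  have h4 := h2 N z α (by omega) hz hα0 hα
  set W : ℝ := Real.exp ((C1 + 1) * (z : ℝ) ^ α) with hW
  have hW1 : 1 ≤ W := Real.one_le_exp (by positivity)
  have hzW : (z : ℝ) ^ α * Real.exp (C1 * (z : ℝ) ^ α) ≤ W := by
    have h5 : (z : ℝ) ^ α ≤ Real.exp ((z : ℝ) ^ α) := by
      have := Real.add_one_le_exp ((z : ℝ) ^ α)
      linarith
    calc (z : ℝ) ^ α * Real.exp (C1 * (z : ℝ) ^ α)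
        ≤ Real.exp ((z : ℝ) ^ α) * Real.exp (C1 * (z : ℝ) ^ α) :=
          mul_le_mul_of_nonneg_right h5 (Real.exp_pos _).le
      _ = W := by
          rw [hW, ← Real.exp_add]
          congr 1
          ring
  have h5 : ∑ n ∈ Finset.Icc 1 N, hh z α n * Real.log n ≤ C2 * C1 * N * W * Real.log N := by
    refine h4.trans ?_
    calc C2 * (z : ℝ) ^ α * N * ∑ m ∈ Finset.Icc 1 N, hh z α m / m
        ≤ C2 * (z : ℝ) ^ α * N * (C1 * Real.log N * Real.exp (C1 * (z : ℝ) ^ α)) := by gcongr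
      _ = C2 * C1 * N * Real.log N * ((z : ℝ) ^ α * Real.exp (C1 * (z : ℝ) ^ α)) := by ring
      _ ≤ C2 * C1 * N * Real.log N * W := by gcongr
      _ = C2 * C1 * N * W * Real.log N := by ring
  have hpos : ∀ n, 0 ≤ hh z α n := fun n => zero_le_one.trans (hh_one_le z α hα0 n)
  -- split
  have h6 : ∑ n ∈ (Finset.Icc 1 N).filter (fun n => N < n ^ 2), hh z α n ≤
      2 * C2 * C1 * N * W := by
    have h7 : ∑ n ∈ (Finset.Icc 1 N).filter (fun n => N < n ^ 2), hh z α n * (Real.log N / 2) ≤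
        C2 * C1 * N * W * Real.log N := by
      refine le_trans ?_ h5
      refine le_trans (Finset.sum_le_sum fun n hn => ?_)
        (Finset.sum_le_sum_of_subset_of_nonneg (Finset.filter_subset (fun n => N < n ^ 2) _)
          fun n hn _ => ?_)
      · obtain ⟨hn1, hn2⟩ := Finset.mem_filter.1 hn
        refine mul_le_mul_of_nonneg_left ?_ (hpos n)
        have hn0 : (0 : ℝ) < n := by
          have := (Finset.mem_Icc.1 hn1).1
          exact_mod_cast this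
        have h8 : Real.log N ≤ Real.log ((n : ℝ) ^ 2) :=
          Real.log_le_log hN0 (by exact_mod_cast hn2.le)
        rw [Real.log_pow] at h8
        push_cast at h8
        linarith
      · have hn1 : (1 : ℝ) ≤ n := by exact_mod_cast (Finset.mem_Icc.1 hn).1
        exact mul_nonneg (hpos n) (Real.log_nonneg hn1)
    rw [← Finset.sum_mul] at h7
    have h8 : (∑ n ∈ (Finset.Icc 1 N).filter (fun n => N < n ^ 2), hh z α n) * Real.log N ≤
        (2 * C2 * C1 * N * W) * Real.log N := by linarith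
    exact le_of_mul_le_mul_right h8 hlog
  have h7 : ∑ n ∈ (Finset.Icc 1 N).filter (fun n => ¬ N < n ^ 2), hh z α n ≤ N := by
    have hsq : (0 : ℝ) ≤ √(N : ℝ) := Real.sqrt_nonneg _
    have h8 : ∀ n ∈ (Finset.Icc 1 N).filter (fun n => ¬ N < n ^ 2), hh z α n ≤ √(N : ℝ) := by
      intro n hn
      obtain ⟨hn1, hn2⟩ := Finset.mem_filter.1 hn
      obtain ⟨hn3, hn4⟩ := Finset.mem_Icc.1 hn1
      have hn1' : (1 : ℝ) ≤ n := by exact_mod_cast hn3
      have hnN : (n : ℝ) ≤ N := by exact_mod_cast hn4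
      calc hh z α n ≤ (n : ℝ) ^ α := hh_le z α hα0 (by omega)
        _ ≤ (N : ℝ) ^ α := Real.rpow_le_rpow (by linarith) hnN hα0
        _ ≤ (N : ℝ) ^ (1 / 2 : ℝ) := Real.rpow_le_rpow_of_exponent_le hN1 (by linarith)
        _ = √(N : ℝ) := (Real.sqrt_eq_rpow _).symm
    have h9 : (((Finset.Icc 1 N).filter (fun n => ¬ N < n ^ 2)).card : ℝ) ≤ √(N : ℝ) := by
      have h10 : (Finset.Icc 1 N).filter (fun n => ¬ N < n ^ 2) ⊆ Finset.Icc 1 (Nat.sqrt N) := by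
        intro n hn
        obtain ⟨hn1, hn2⟩ := Finset.mem_filter.1 hn
        rw [Finset.mem_Icc] at hn1 ⊢
        refine ⟨hn1.1, ?_⟩
        rw [Nat.le_sqrt']
        omega
      have h11 := Finset.card_le_card h10
      rw [Nat.card_Icc] at h11
      have h12 : (Nat.sqrt N : ℝ) ≤ √(N : ℝ) := Real.nat_sqrt_le_real_sqrt
      have h13 : (((Finset.Icc 1 N).filter (fun n => ¬ N < n ^ 2)).card : ℝ) ≤ Nat.sqrt N := by
        exact_mod_cast (by omega : ((Finset.Icc 1 N).filter (fun n => ¬ N < n ^ 2)).card ≤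
          Nat.sqrt N)
      exact h13.trans h12
    calc ∑ n ∈ (Finset.Icc 1 N).filter (fun n => ¬ N < n ^ 2), hh z α n
        ≤ ∑ n ∈ (Finset.Icc 1 N).filter (fun n => ¬ N < n ^ 2), √(N : ℝ) := Finset.sum_le_sum h8
      _ = (((Finset.Icc 1 N).filter (fun n => ¬ N < n ^ 2)).card : ℝ) * √(N : ℝ) := by
          rw [Finset.sum_const, nsmul_eq_mul]
      _ ≤ √(N : ℝ) * √(N : ℝ) := by gcongr
      _ = N := Real.mul_self_sqrt hN0.le
  have h8 : ∑ n ∈ Finset.Icc 1 N, hh z α n ≤ 2 * C2 * C1 * N * W + N := by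
    rw [← Finset.sum_filter_add_sum_filter_not (Finset.Icc 1 N) (fun n => N < n ^ 2)]
    exact add_le_add h6 h7
  have h9 : W ≤ Real.exp ((2 * C2 * C1 + 1 + C1) * (z : ℝ) ^ α) := by
    rw [hW]
    apply Real.exp_le_exp.2
    have : 0 ≤ 2 * C2 * C1 * (z : ℝ) ^ α := by positivity
    linarith
  calc ∑ n ∈ Finset.Icc 1 N, hh z α n ≤ 2 * C2 * C1 * N * W + N := h8
    _ ≤ 2 * C2 * C1 * N * W + N * W := by
        have : (N : ℝ) * 1 ≤ N * W := mul_le_mul_of_nonneg_left hW1 hN0.le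
        linarith
    _ = (2 * C2 * C1 + 1) * N * W := by ring
    _ ≤ (2 * C2 * C1 + 1 + C1) * N * Real.exp ((2 * C2 * C1 + 1 + C1) * (z : ℝ) ^ α) := by
        have h10 : 2 * C2 * C1 + 1 ≤ 2 * C2 * C1 + 1 + C1 := by linarith
        gcongr

theorem near_smooth_u (K : ℕ) : ∃ C : ℝ, 0 < C ∧ ∀ (N z : ℕ) (α : ℝ), 2 ≤ z → z ≤ N → 0 ≤ α →
    α ≤ 1 / 4 → ∀ E : Finset ℕ, (∀ m ∈ E, 1 ≤ m ∧ m ≤ N ∧ NSm z K N m) →
      (E.card : ℝ) ≤ C * (N : ℝ) ^ (1 - α) * ((z : ℝ) ^ α) ^ K * Real.exp (C * (z : ℝ) ^ α) := by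
  obtain ⟨C, hC, hS⟩ := sum_hh_u
  refine ⟨C, hC, fun N z α hz hzN hα0 hα4 E hE => ?_⟩
  have hN1 : (1 : ℝ) ≤ N := by exact_mod_cast (by omega : 1 ≤ N)
  have hN0 : (0 : ℝ) < N := by linarith
  have hz0 : (0 : ℝ) < z := by exact_mod_cast (by omega : 0 < z)
  have hNα : (N : ℝ) ^ (1 - α) * (N : ℝ) ^ α = N := by
    rw [← Real.rpow_add hN0]
    have : (1 - α + α : ℝ) = 1 := by ring
    rw [this, Real.rpow_one]
  have hNα0 : (0 : ℝ) < (N : ℝ) ^ α := by positivity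
  have hzK0 : (0 : ℝ) < ((z : ℝ) ^ α) ^ K := by positivity
  have h1 := hS N z α hz hzN hα0 hα4
  have h2 : ∀ m ∈ E, (N : ℝ) ^ α / ((z : ℝ) ^ α) ^ K ≤ hh z α m := by
    intro m hm
    obtain ⟨hm1, hm2, hm3⟩ := hE m hm
    refine le_trans (le_of_eq ?_) (hh_near z K N m α hα0 (by omega) hm1 hm3)
    rw [Real.div_rpow hN0.le (by positivity)]
    congr 1
    rw [← Real.rpow_natCast, ← Real.rpow_natCast, ← Real.rpow_mul hz0.le, ← Real.rpow_mul hz0.le,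
      mul_comm]
  have h3 : (E.card : ℝ) * ((N : ℝ) ^ α / ((z : ℝ) ^ α) ^ K) ≤
      C * N * Real.exp (C * (z : ℝ) ^ α) := by
    calc (E.card : ℝ) * ((N : ℝ) ^ α / ((z : ℝ) ^ α) ^ K)
        = ∑ m ∈ E, (N : ℝ) ^ α / ((z : ℝ) ^ α) ^ K := by
          rw [Finset.sum_const, nsmul_eq_mul]
      _ ≤ ∑ m ∈ E, hh z α m := Finset.sum_le_sum h2
      _ ≤ ∑ m ∈ Finset.Icc 1 N, hh z α m :=
          Finset.sum_le_sum_of_subset_of_nonneg
            (fun m hm => Finset.mem_Icc.2 ⟨(hE m hm).1, (hE m hm).2.1⟩)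
            fun m _ _ => zero_le_one.trans (hh_one_le z α hα0 m)
      _ ≤ C * N * Real.exp (C * (z : ℝ) ^ α) := h1
  have hpos : 0 < (N : ℝ) ^ α / ((z : ℝ) ^ α) ^ K := by positivity
  refine le_of_mul_le_mul_right (h3.trans (le_of_eq ?_)) hpos
  calc C * N * Real.exp (C * (z : ℝ) ^ α)
      = C * ((N : ℝ) ^ (1 - α) * (N : ℝ) ^ α) * Real.exp (C * (z : ℝ) ^ α) := by rw [hNα]
    _ = C * (N : ℝ) ^ (1 - α) * ((z : ℝ) ^ α) ^ K * Real.exp (C * (z : ℝ) ^ α) *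
        ((N : ℝ) ^ α / ((z : ℝ) ^ α) ^ K) := by
        field_simp

end Pool.Agent.ARV
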