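import Pool.Agent.ARV.Rgu
import Pool.Agent.ARV.Shd
import Pool.Agent.ARU.Smo

set_option autoImplicit false

/-!
# ARV module RSU: one scale, away from the nearly smooth numbers

Structure as in `Pool.Agent.ARS.scale_T` (`ARS/Rst.lean`).  Let `K₁` be the number `K` of `rough_u`
(`ARV/Rgu.lean`, stub) and `K = max K₁ ⌈100 / η⌉₊`.  Every `m ∈ E` is `m = s u`, `s` `z`-smooth,
`u` `z`-rough (`Pool.Agent.ARU.rough_split`), and `¬ NSm` gives `z ^ K * s ≤ N`.  For such `s` let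
`M = N / s ≥ z ^ K ≥ z ^ K₁` (`M ^ K₁ ≤ N ^ K ≤ x`; `M ≥ 1`); by `rough_u` there are at most
`M ^ (1 - η/16) ≤ (N/s) ^ (1 - η/16)` numbers `u`.  As `α ≤ η/32`,
`(N/s) ^ (1 - η/16) ≤ (N/s) ^ (1 - α) (N/s) ^ (-η/32) ≤ (N/s) ^ (1 - α) z ^ (-3)`
(`K η / 32 ≥ 3`, `N/s ≥ z ^ K`).  So
`|E| ≤ N ^ (1 - α) z ^ (-3) ∑_{s ≤ N, s z-smooth} s ^ (-(1 - α))`, and
`s ^ (-(1 - α)) = s ^ α / s = hh z α s / s` (`hh_smooth`), so the last sum is at most
`∑_{m ≤ N} hh z α m / m ≤ C log N exp (C z ^ α) ≤ C z exp (C z ^ α)` (`sum_hh_div_u`,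
`ARV/Shd.lean`, stub; `hh ≥ 1 > 0`; `log N ≤ z`).
-/

namespace Pool.Agent.ARV

open Pool.Agent.ARS Pool.Agent.Helper8.ArtinLS Pool.Agent.Helper6

theorem scale_u (η ε : ℝ) (hη : 0 < η) (hη1 : η ≤ 1) (hε : 0 < ε) :
    ∃ K : ℕ, 1 ≤ K ∧ ∃ T₀ : ℝ, 2 ≤ T₀ ∧ ∃ C : ℝ, 0 < C ∧ ∀ T : ℝ, T₀ ≤ T →
      ∀ (x z N : ℕ) (α : ℝ), T ^ (2 + η) ≤ (z : ℝ) → z ≤ N → Real.log N ≤ z → N ^ K ≤ x →
      Real.log x ≤ T → 0 ≤ α → α ≤ η / 32 → ∀ g : ℕ → ℝ, Sieve x g → ∀ E : Finset ℕ,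
      (∀ m ∈ E, 1 ≤ m ∧ m ≤ N ∧ ¬ NSm z K N m) →
      (∀ m ∈ E, ε * Nat.primeCounting x ≤ |g m|) →
      (E.card : ℝ) ≤ C * (N : ℝ) ^ (1 - α) * Real.exp (C * (z : ℝ) ^ α) / (z : ℝ) ^ 2 := by
  classical
  obtain ⟨K₁, hK₁, T₀, hT₀2, hrough⟩ := rough_u η ε hη hη1 hε
  obtain ⟨C, hC, hmean⟩ := sum_hh_div_u
  set K : ℕ := max K₁ ⌈100 / η⌉₊ with hKdef
  have hKK₁ : K₁ ≤ K := le_max_left _ _
  have hK1 : 1 ≤ K := hK₁.trans hKK₁
  have hKη : 100 ≤ (K : ℝ) * η := by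
    have h1 : 100 / η ≤ (K : ℝ) := by
      refine (Nat.le_ceil _).trans ?_
      exact_mod_cast le_max_right K₁ ⌈100 / η⌉₊
    rwa [div_le_iff₀ hη] at h1
  refine ⟨K, hK1, T₀, hT₀2, C, hC, ?_⟩
  intro T hT x z N α hz hzN hlN hNx hlx hα hαη g hg E hE hbad
  have hT2 : (2 : ℝ) ≤ T := hT₀2.trans hT
  have hz4 : (4 : ℝ) ≤ z := by
    have h1 : (2 : ℝ) ^ (2 : ℝ) ≤ T ^ (2 + η) := by
      calc (2 : ℝ) ^ (2 : ℝ) ≤ T ^ (2 : ℝ) := Real.rpow_le_rpow (by norm_num) hT2 (by norm_num)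
        _ ≤ T ^ (2 + η) := Real.rpow_le_rpow_of_exponent_le (by linarith) (by linarith)
    have h2 : (2 : ℝ) ^ (2 : ℝ) = 4 := by
      rw [show (2 : ℝ) = ((2 : ℕ) : ℝ) by norm_num, Real.rpow_natCast]
      norm_num
    linarith
  have hz0 : (0 : ℝ) < z := by linarith
  have hz1 : 1 ≤ z := by exact_mod_cast hz0
  have hz2 : 2 ≤ z := by
    have h1 : ((2 : ℕ) : ℝ) ≤ (z : ℝ) := by push_cast; linarith
    exact_mod_cast h1
  have hzr1 : (1 : ℝ) ≤ z := by linarith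
  have hN1 : 1 ≤ N := hz1.trans hzN
  have hη0 : 0 < η / 32 := by positivity
  set S : Finset ℕ := (Finset.Icc 1 N).filter (fun s => s ∈ Nat.smoothNumbers z) with hS
  set F : ℕ → Finset ℕ := fun s => (Finset.Icc 1 (N / s)).filter
    (fun u => (∀ p : ℕ, p.Prime → p ∣ u → z ≤ p) ∧ s * u ∈ E ∧ z ^ K * s ≤ N) with hF
  have hcover : E ⊆ S.biUnion (fun s => (F s).image (fun u => s * u)) := by
    intro m hm
    obtain ⟨hm1, hmN, hns⟩ := hE m hm
    obtain ⟨s, u, hs, hs1, hu1, hmsu, hu⟩ := Pool.Agent.ARU.rough_split z m hm1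
    have hsN : s ≤ N := by
      calc s = s * 1 := (mul_one s).symm
        _ ≤ s * u := Nat.mul_le_mul_left s hu1
        _ = m := hmsu.symm
        _ ≤ N := hmN
    have hlt : z ^ K * s ≤ N := by
      by_contra hcon
      exact hns ⟨s, u, hmsu, hs, hu, not_le.1 hcon⟩
    rw [Finset.mem_biUnion]
    refine ⟨s, ?_, ?_⟩
    · rw [hS, Finset.mem_filter, Finset.mem_Icc]
      exact ⟨⟨hs1, hsN⟩, hs⟩
    · rw [Finset.mem_image]
      refine ⟨u, ?_, hmsu.symm⟩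
      simp only [hF, Finset.mem_filter, Finset.mem_Icc]
      refine ⟨⟨hu1, ?_⟩, hu, ?_, hlt⟩
      · rw [Nat.le_div_iff_mul_le (by omega)]
        calc u * s = s * u := mul_comm _ _
          _ = m := hmsu.symm
          _ ≤ N := hmN
      · rw [← hmsu]; exact hm
  have hFs : ∀ s ∈ S, ((F s).card : ℝ) ≤
      (N : ℝ) ^ (1 - α) * ((z : ℝ) ^ 3)⁻¹ * (hh z α s / s) := by
    intro s hs
    rw [hS, Finset.mem_filter, Finset.mem_Icc] at hs
    obtain ⟨⟨hs1, hsN⟩, hsm⟩ := hs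
    have hs0 : (0 : ℝ) < s := by exact_mod_cast hs1
    have hhs : hh z α s / s = (s : ℝ) ^ (-(1 - α)) := by
      rw [hh_smooth z α hsm, show -(1 - α) = α - 1 by ring, Real.rpow_sub hs0, Real.rpow_one]
    rw [hhs]
    rcases (F s).eq_empty_or_nonempty with hemp | hne
    · rw [hemp, Finset.card_empty, Nat.cast_zero]
      positivity
    obtain ⟨u₀, hu₀⟩ := hne
    have hlt : z ^ K * s ≤ N := by
      simp only [hF, Finset.mem_filter] at hu₀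
      exact hu₀.2.2.2
    have hMge : z ^ K ≤ N / s := by
      rw [Nat.le_div_iff_mul_le (by omega)]
      exact hlt
    have hM1 : 1 ≤ N / s := (Nat.one_le_pow _ _ (by omega)).trans hMge
    have hMK : z ^ K₁ ≤ N / s :=
      (Nat.pow_le_pow_right (by omega) hKK₁).trans hMge
    have hMx : (N / s) ^ K₁ ≤ x :=
      ((Nat.pow_le_pow_right hM1 hKK₁).trans (Nat.pow_le_pow_left (Nat.div_le_self N s) K)).trans
        hNx
    have h1 := hrough T hT x z (N / s) hz hMK hMx hlx g hg s (F s)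
      (fun u hu => by
        simp only [hF, Finset.mem_filter, Finset.mem_Icc] at hu
        exact hu.1)
      (fun u hu => by
        simp only [hF, Finset.mem_filter, Finset.mem_Icc] at hu
        exact hu.2.1)
      (fun u hu => by
        simp only [hF, Finset.mem_filter, Finset.mem_Icc] at hu
        exact hbad (s * u) hu.2.2.1)
    refine h1.trans ?_
    have h4 : ((N / s : ℕ) : ℝ) ≤ (N : ℝ) / s := Nat.cast_div_le
    set y : ℝ := (N : ℝ) / s with hy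
    have hzy : (z : ℝ) ^ K ≤ y := by
      rw [hy, le_div_iff₀ hs0]
      exact_mod_cast hlt
    have hzK : (1 : ℝ) ≤ (z : ℝ) ^ K := one_le_pow₀ hzr1
    have hy1 : 1 ≤ y := hzK.trans hzy
    have hy0 : 0 < y := by linarith
    have h5 : ((N / s : ℕ) : ℝ) ^ (1 - η / 16) ≤ y ^ (1 - η / 16) :=
      Real.rpow_le_rpow (Nat.cast_nonneg _) h4 (by linarith)
    have h6 : y ^ (1 - η / 16) ≤ y ^ (1 - α) * y ^ (-(η / 32)) := by
      rw [← Real.rpow_add hy0]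
      exact Real.rpow_le_rpow_of_exponent_le hy1 (by linarith)
    have h7 : y ^ (-(η / 32)) ≤ ((z : ℝ) ^ 3)⁻¹ := by
      rw [Real.rpow_neg hy0.le]
      apply inv_anti₀ (by positivity)
      have h8 : ((z : ℝ) ^ K) ^ (η / 32) ≤ y ^ (η / 32) :=
        Real.rpow_le_rpow (by positivity) hzy hη0.le
      have h9 : (z : ℝ) ^ 3 ≤ ((z : ℝ) ^ K) ^ (η / 32) := by
        rw [← Real.rpow_natCast (z : ℝ) K, ← Real.rpow_mul hz0.le, ← Real.rpow_natCast (z : ℝ) 3]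
        apply Real.rpow_le_rpow_of_exponent_le hzr1
        push_cast
        linarith
      exact h9.trans h8
    have h10 : y ^ (1 - α) = (N : ℝ) ^ (1 - α) * (s : ℝ) ^ (-(1 - α)) := by
      rw [hy, Real.div_rpow (Nat.cast_nonneg _) hs0.le, Real.rpow_neg hs0.le, div_eq_mul_inv]
    calc ((N / s : ℕ) : ℝ) ^ (1 - η / 16) ≤ y ^ (1 - α) * y ^ (-(η / 32)) := h5.trans h6
      _ ≤ y ^ (1 - α) * ((z : ℝ) ^ 3)⁻¹ := mul_le_mul_of_nonneg_left h7 (by positivity)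
      _ = (N : ℝ) ^ (1 - α) * ((z : ℝ) ^ 3)⁻¹ * (s : ℝ) ^ (-(1 - α)) := by rw [h10]; ring
  have hsum : ∑ s ∈ S, hh z α s / s ≤ C * z * Real.exp (C * (z : ℝ) ^ α) := by
    calc ∑ s ∈ S, hh z α s / s ≤ ∑ m ∈ Finset.Icc 1 N, hh z α m / m := by
          apply Finset.sum_le_sum_of_subset_of_nonneg (Finset.filter_subset _ _)
          intro m _ _
          have := hh_one_le z α hα m
          positivity
      _ ≤ C * Real.log N * Real.exp (C * (z : ℝ) ^ α) :=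
          hmean N z α hz2 hzN hα (by linarith)
      _ ≤ C * z * Real.exp (C * (z : ℝ) ^ α) := by
          apply mul_le_mul_of_nonneg_right _ (Real.exp_pos _).le
          exact mul_le_mul_of_nonneg_left hlN hC.le
  calc (E.card : ℝ) ≤ ((S.biUnion (fun s => (F s).image (fun u => s * u))).card : ℝ) := by
        exact_mod_cast Finset.card_le_card hcover
    _ ≤ ((∑ s ∈ S, ((F s).image (fun u => s * u)).card : ℕ) : ℝ) := by
        exact_mod_cast Finset.card_biUnion_le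
    _ ≤ ∑ s ∈ S, ((F s).card : ℝ) := by
        push_cast
        apply Finset.sum_le_sum
        intro s _
        exact_mod_cast Finset.card_image_le
    _ ≤ ∑ s ∈ S, (N : ℝ) ^ (1 - α) * ((z : ℝ) ^ 3)⁻¹ * (hh z α s / s) := Finset.sum_le_sum hFs
    _ = (N : ℝ) ^ (1 - α) * ((z : ℝ) ^ 3)⁻¹ * ∑ s ∈ S, hh z α s / s := by
        rw [Finset.mul_sum]
    _ ≤ (N : ℝ) ^ (1 - α) * ((z : ℝ) ^ 3)⁻¹ * (C * z * Real.exp (C * (z : ℝ) ^ α)) := by
        apply mul_le_mul_of_nonneg_left hsum (by positivity)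
    _ = C * (N : ℝ) ^ (1 - α) * Real.exp (C * (z : ℝ) ^ α) / (z : ℝ) ^ 2 := by
        field_simp

end Pool.Agent.ARV
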