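import Pool.Agent.ARS.Cn2
import Pool.Agent.ARS.Cnb
import Pool.Agent.ARS.Cnt
import Pool.Agent.ARV.Defs
import Pool.Agent.ARV.Nsu
import Pool.Agent.ARV.Rsu

set_option autoImplicit false

/-!
# ARV module CNU: all scales, range `x ≤ exp T`, `T ≥ (log N) ^ B₀`, for a family

Structure as in `Pool.Agent.ARS.count_T` (`ARS/Cnt.lean`).
Parameters: `η = δ`; `K, T₁, C₂` from `scale_u η (ε'/4)`; `C₁` from `near_smooth_u K`;
`B₀ = 16 / η`, `A = K + 1`.  If `u = log N / log T ≤ u₀` the bound is trivial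
(`C' ≥ exp (u₀ log u₀)`); `u₀` is large, so that `u > u₀` makes `N` and (because
`T ≥ (log N) ^ B₀`) `T` large.  `T' = 2 T`, `z = ⌈T' ^ (2 + η)⌉₊`,
`(2 + η) log T ≤ log z ≤ (2 + 2 η) log T`, `z ≤ N`, `log N ≤ T ≤ z`.  `α = log u / log z`:
`z ^ α = u`, `log u ≤ log log N ≤ log T / B₀`, `α ≤ 1 / (2 B₀) = η / 32`,
`N ^ (-α) = exp (-(u log T / log z) log u) ≤ exp (-u log u / (2 + 2 η))`.
Nearly smooth `m`: `≤ C₁ N exp (-u log u / (2 + 2 η) + K log u + C₁ u)`.
Others: `≤ z` scales, each `≤ C₂ N exp (-u log u / (2 + 2 η)) exp (C₂ u) / z ^ 2`.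
`1 / (2 + 2 η) ≥ 1/2 - η/2 = (1/2 - δ) + δ/2` and `(δ/2) u log u ≥ K log u + (C₁ + C₂) u`.
-/

namespace Pool.Agent.ARV

open Filter Topology Pool.Agent.ARS Pool.Agent.Helper8.ArtinLS Pool.Agent.Helper6

lemma vv_eq {δ : ℝ} {N : ℕ} {T : ℝ} (hu : 0 < Real.log N / Real.log T) :
    vv δ N T = Real.exp (-((1 / 2 - δ) * ((Real.log N / Real.log T) *
      Real.log (Real.log N / Real.log T)))) := by
  unfold vv
  rw [Real.rpow_def_of_pos hu]
  congr 1
  ring

lemma vv_nonneg (δ : ℝ) (N : ℕ) {T : ℝ} (hT : 1 ≤ T) : 0 ≤ vv δ N T := by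
  unfold vv
  apply Real.rpow_nonneg
  exact div_nonneg (Real.log_natCast_nonneg N) (Real.log_nonneg hT)

/-- the trivial range -/
lemma vv_lower {δ : ℝ} (hδ : 0 < δ) (hδ2 : δ < 1 / 2) {u₀ : ℝ} (hu₀ : 1 ≤ u₀) {N : ℕ} {T : ℝ}
    (hT : 2 ≤ T) (hN : 1 ≤ N) (hu : Real.log N / Real.log T ≤ u₀) :
    1 ≤ Real.exp (u₀ * Real.log u₀) * vv δ N T := by
  have hlT : 0 < Real.log T := Real.log_pos (by linarith)
  have hl0 : 0 ≤ Real.log u₀ := Real.log_nonneg hu₀
  have h1 : 1 ≤ Real.exp (u₀ * Real.log u₀) := Real.one_le_exp (by positivity)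
  rcases Nat.lt_or_ge N 2 with h | h
  · have hN1 : N = 1 := by omega
    subst hN1
    have h2 : vv δ 1 T = 1 := by
      unfold vv
      simp
    rw [h2, mul_one]
    exact h1
  have hlN : 0 < Real.log N := Real.log_pos (by exact_mod_cast h)
  set u : ℝ := Real.log N / Real.log T with hu_def
  have hu0 : 0 < u := by positivity
  have h3 : u * Real.log u ≤ u₀ * Real.log u₀ := by
    rcases le_total u 1 with h4 | h4
    · have h5 : Real.log u ≤ 0 := Real.log_nonpos hu0.le h4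
      have h6 : u * Real.log u ≤ 0 := mul_nonpos_of_nonneg_of_nonpos hu0.le h5
      have h7 : 0 ≤ u₀ * Real.log u₀ := by positivity
      linarith
    · have h5 : 0 ≤ Real.log u := Real.log_nonneg h4
      have h6 : Real.log u ≤ Real.log u₀ := Real.log_le_log hu0 hu
      calc u * Real.log u ≤ u₀ * Real.log u := mul_le_mul_of_nonneg_right hu h5
        _ ≤ u₀ * Real.log u₀ := mul_le_mul_of_nonneg_left h6 (by linarith)
  rw [vv_eq (by rw [← hu_def]; exact hu0), ← hu_def, ← Real.exp_add]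
  apply Real.one_le_exp
  have h8 : 0 ≤ u₀ * Real.log u₀ := by positivity
  have h9 : (1 / 2 - δ) * (u * Real.log u) ≤ (1 / 2 - δ) * (u₀ * Real.log u₀) :=
    mul_le_mul_of_nonneg_left h3 (by linarith)
  nlinarith

/-- the size of `z` -/
lemma z_size {δ T : ℝ} (hδ : 0 < δ) (hδ2 : δ < 1 / 2) (hT1 : 1 ≤ T) (hT : 8 ≤ T ^ δ) :
    (2 * T) ^ (2 + δ) ≤ (⌈(2 * T) ^ (2 + δ)⌉₊ : ℝ) ∧
      Real.log (⌈(2 * T) ^ (2 + δ)⌉₊ : ℝ) ≤ (2 + 2 * δ) * Real.log T ∧
      (2 * T) ^ 2 ≤ (⌈(2 * T) ^ (2 + δ)⌉₊ : ℝ) := by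
  have hT0 : 0 < T := by linarith
  have h1 : (2 * T) ^ (2 + δ) ≤ (⌈(2 * T) ^ (2 + δ)⌉₊ : ℝ) := Nat.le_ceil _
  have h2 : (⌈(2 * T) ^ (2 + δ)⌉₊ : ℝ) < (2 * T) ^ (2 + δ) + 1 :=
    Nat.ceil_lt_add_one (by positivity)
  have h0 : 0 < (2 * T) ^ (2 + δ) := by positivity
  refine ⟨h1, ?_, ?_⟩
  · have h3 : (2 * T) ^ (2 + δ) = 2 ^ (2 + δ) * T ^ (2 + δ) :=
      Real.mul_rpow (by norm_num) hT0.le
    have h4 : (2 : ℝ) ^ (2 + δ) ≤ 6 := by
      calc (2 : ℝ) ^ (2 + δ) ≤ (2 : ℝ) ^ (5 / 2 : ℝ) :=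
            Real.rpow_le_rpow_of_exponent_le (by norm_num) (by linarith)
        _ ≤ 6 := by
            have h5 : ((2 : ℝ) ^ (5 / 2 : ℝ)) ^ 2 = 32 := by
              rw [← Real.rpow_natCast, ← Real.rpow_mul (by norm_num)]
              norm_num
            by_contra h
            push Not at h
            have h6 : (6 : ℝ) ^ 2 < ((2 : ℝ) ^ (5 / 2 : ℝ)) ^ 2 :=
              pow_lt_pow_left₀ h (by norm_num) (by norm_num)
            rw [h5] at h6
            norm_num at h6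
    have h5 : 1 ≤ T ^ (2 + δ) := Real.one_le_rpow hT1 (by linarith)
    have h6 : (⌈(2 * T) ^ (2 + δ)⌉₊ : ℝ) ≤ T ^ (2 + 2 * δ) := by
      have h7 : T ^ (2 + 2 * δ) = T ^ δ * T ^ (2 + δ) := by
        rw [← Real.rpow_add hT0]
        congr 1
        ring
      rw [h7]
      have h8 : 8 * T ^ (2 + δ) ≤ T ^ δ * T ^ (2 + δ) :=
        mul_le_mul_of_nonneg_right hT (by positivity)
      have h9 : 2 ^ (2 + δ) * T ^ (2 + δ) ≤ 6 * T ^ (2 + δ) :=
        mul_le_mul_of_nonneg_right h4 (by positivity)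
      linarith
    calc Real.log (⌈(2 * T) ^ (2 + δ)⌉₊ : ℝ) ≤ Real.log (T ^ (2 + 2 * δ)) :=
          Real.log_le_log (by linarith) h6
      _ = (2 + 2 * δ) * Real.log T := Real.log_rpow hT0 _
  · refine le_trans ?_ h1
    rw [← Real.rpow_natCast]
    apply Real.rpow_le_rpow_of_exponent_le (by linarith)
    push_cast
    linarith

/-- the final comparison -/
lemma absorb_u {δ K C u : ℝ} (hδ : 0 < δ) (hδ2 : δ < 1 / 2) (hK : 0 ≤ K) (hC : 0 ≤ C)
    (hu1 : 1 ≤ u) (hu : 2 * (K + C) / δ ≤ Real.log u) :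
    Real.exp (-(u * Real.log u / (2 + 2 * δ))) * Real.exp (K * Real.log u) * Real.exp (C * u) ≤
      Real.exp (-((1 / 2 - δ) * (u * Real.log u))) := by
  rw [← Real.exp_add, ← Real.exp_add]
  apply Real.exp_le_exp.mpr
  have hu0 : 0 < u := by linarith
  have hl0 : 0 ≤ Real.log u := Real.log_nonneg hu1
  have h1 : Real.log u ≤ u := (Real.log_le_sub_one_of_pos hu0).trans (by linarith)
  have h2 : K * Real.log u ≤ K * u := mul_le_mul_of_nonneg_left h1 hK
  have h3 : (K + C) * u ≤ δ / 2 * (u * Real.log u) := by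
    rw [div_le_iff₀ hδ] at hu
    nlinarith
  have h4 : (1 / 2 - δ / 2) * (u * Real.log u) ≤ u * Real.log u / (2 + 2 * δ) := by
    rw [le_div_iff₀ (by linarith)]
    have h5 : 0 ≤ u * Real.log u := by positivity
    have h6 : (1 / 2 - δ / 2) * (2 + 2 * δ) = 1 - δ ^ 2 := by ring
    have h7 : (1 / 2 - δ / 2) * (u * Real.log u) * (2 + 2 * δ) = (1 - δ ^ 2) * (u * Real.log u) := by
      rw [← h6]; ring
    rw [h7]
    nlinarith [sq_nonneg δ]
  linarith

/-- The number of `m ≤ N` which are bad at some `x` with `N ^ A ≤ x ≤ exp T`. -/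
theorem count_u {P Dv f : ℕ → ℕ → ℝ} {Em : ℕ → ℝ} {C δ₀ : ℝ} (F : Fam P Dv f Em C δ₀)
    (δ ε : ℝ) (hδ : 0 < δ) (hδ2 : δ < 1 / 2) (hε : 0 < ε) :
    ∃ B₀ : ℝ, 1 ≤ B₀ ∧ ∃ A : ℕ, 1 ≤ A ∧ ∃ C' : ℝ, 0 < C' ∧ ∀ N : ℕ, 1 ≤ N → ∀ T : ℝ, 2 ≤ T →
      (Real.log N) ^ B₀ ≤ T → ∀ E : Finset ℕ, (∀ m ∈ E, 1 ≤ m ∧ m ≤ N) →
      (∀ m ∈ E, ∃ x : ℕ, N ^ A ≤ x ∧ (x : ℝ) ≤ Real.exp T ∧
        ε < |P m x / Nat.primeCounting x - δ₀|) →
      (E.card : ℝ) ≤ C' * N * vv δ N T := by
  classical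
  obtain ⟨lam, hlam, ε', hε', L₀, hL₀, hcov⟩ := scale_cover δ₀ F.d0 F.d2 ε hε
  obtain ⟨K, hK1, T₁, hT₁2, C₂, hC₂, hsc⟩ := scale_u δ (ε' / 4) hδ (by linarith) (by positivity)
  obtain ⟨C₁, hC₁, hns⟩ := near_smooth_u K
  obtain ⟨X₂, hX₂⟩ := eventually_atTop.mp ((fam_close F (ε' / 2) (by positivity)).and
    (fam_log F (ε' / 4) (by positivity)))
  have hlam0 : 0 < lam := by linarith
  have hll : 0 < Real.log lam := Real.log_pos hlam
  have hlog2 : 0 < Real.log 2 := Real.log_pos (by norm_num)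
  -- large T
  set T₂ : ℝ := max (max T₁ (Real.log lam)) (max (4 / Real.log lam) (max 3 (8 ^ (1 / δ)))) with hT₂
  have hT₂1 : T₁ ≤ T₂ := (le_max_left _ _).trans (le_max_left _ _)
  have hT₂2 : Real.log lam ≤ T₂ := (le_max_right _ _).trans (le_max_left _ _)
  have hT₂3 : 4 / Real.log lam ≤ T₂ := (le_max_left _ _).trans (le_max_right _ _)
  have hT₂4 : 3 ≤ T₂ :=
    (le_max_left _ _).trans ((le_max_right _ _).trans (le_max_right _ _))
  have hT₂5 : 8 ^ (1 / δ) ≤ T₂ :=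
    (le_max_right _ _).trans ((le_max_right _ _).trans (le_max_right _ _))
  -- large N
  set N₀ : ℝ := max (max L₀ (2 * lam)) (max (X₂ : ℝ) 3) with hN₀
  have hN₀3 : 3 ≤ N₀ := (le_max_right _ _).trans (le_max_right _ _)
  set C₃ : ℝ := C₁ + C₂ with hC₃
  have hC₃0 : 0 < C₃ := by positivity
  set u₀ : ℝ := max (max (Real.log N₀ / Real.log 2) (T₂ / Real.log 2))
    (max 3 (Real.exp (2 * ((K : ℝ) + C₃) / δ))) with hu₀
  have hu₀1 : Real.log N₀ / Real.log 2 ≤ u₀ := (le_max_left _ _).trans (le_max_left _ _)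
  have hu₀2 : T₂ / Real.log 2 ≤ u₀ := (le_max_right _ _).trans (le_max_left _ _)
  have hu₀3 : 3 ≤ u₀ := (le_max_left _ _).trans (le_max_right _ _)
  have hu₀4 : Real.exp (2 * ((K : ℝ) + C₃) / δ) ≤ u₀ := (le_max_right _ _).trans (le_max_right _ _)
  have hB₀1 : 1 ≤ 16 / δ := by
    rw [le_div_iff₀ hδ]
    linarith
  refine ⟨16 / δ, hB₀1, K + 1, by omega, max (Real.exp (u₀ * Real.log u₀)) C₃, ?_, ?_⟩
  · exact lt_of_lt_of_le hC₃0 (le_max_right _ _)
  intro N hN T hT hNT E hE hbad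
  have hNr : (1 : ℝ) ≤ N := by exact_mod_cast hN
  have hNpos : (0 : ℝ) < N := by linarith
  have hlT : Real.log 2 ≤ Real.log T := Real.log_le_log (by norm_num) hT
  have hlT0 : 0 < Real.log T := lt_of_lt_of_le hlog2 hlT
  have hvv0 : 0 ≤ vv δ N T := vv_nonneg δ N (by linarith)
  have hNvv : 0 ≤ (N : ℝ) * vv δ N T := by positivity
  rcases le_or_gt (Real.log N / Real.log T) u₀ with hsmall | hlarge
  · -- trivial range
    have h1 : (E.card : ℝ) ≤ N := by
      have h2 : E ⊆ Finset.Icc 1 N := fun m hm => Finset.mem_Icc.2 (hE m hm)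
      have h3 := Finset.card_le_card h2
      rw [Nat.card_Icc, Nat.add_sub_cancel] at h3
      exact_mod_cast h3
    have h2 := vv_lower hδ hδ2 (by linarith) hT hN hsmall
    calc (E.card : ℝ) ≤ N := h1
      _ = N * 1 := (mul_one _).symm
      _ ≤ N * (Real.exp (u₀ * Real.log u₀) * vv δ N T) := mul_le_mul_of_nonneg_left h2 hNpos.le
      _ = Real.exp (u₀ * Real.log u₀) * ((N : ℝ) * vv δ N T) := by ring
      _ ≤ max (Real.exp (u₀ * Real.log u₀)) C₃ * ((N : ℝ) * vv δ N T) :=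
          mul_le_mul_of_nonneg_right (le_max_left _ _) hNvv
      _ = _ := by ring
  -- main range
  set u : ℝ := Real.log N / Real.log T with hu_def
  have hu3 : 3 < u := lt_of_le_of_lt hu₀3 hlarge
  have hu0 : 0 < u := by linarith
  have hulT : u * Real.log T = Real.log N := by
    rw [hu_def]
    field_simp
  have hlN1 : u₀ * Real.log 2 < Real.log N := by
    calc u₀ * Real.log 2 ≤ u₀ * Real.log T := mul_le_mul_of_nonneg_left hlT (by linarith)
      _ < u * Real.log T := mul_lt_mul_of_pos_right hlarge hlT0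
      _ = Real.log N := hulT
  have hNN₀ : N₀ ≤ N := by
    have h1 : Real.log N₀ ≤ u₀ * Real.log 2 := by
      rwa [div_le_iff₀ hlog2] at hu₀1
    have h2 : Real.log N₀ < Real.log N := by linarith
    exact (Real.log_lt_log_iff (by linarith) hNpos).1 h2 |>.le
  have hT₂N : T₂ ≤ Real.log N := by
    rw [div_le_iff₀ hlog2] at hu₀2
    linarith
  have hlN3 : 3 ≤ Real.log N := hT₂4.trans hT₂N
  have hlNT : Real.log N ≤ T := by
    calc Real.log N = (Real.log N) ^ (1 : ℝ) := (Real.rpow_one _).symm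
      _ ≤ (Real.log N) ^ (16 / δ) := Real.rpow_le_rpow_of_exponent_le (by linarith) hB₀1
      _ ≤ T := hNT
  have hT₂T : T₂ ≤ T := hT₂N.trans hlNT
  have hT3 : 3 ≤ T := hT₂4.trans hT₂T
  have hT0 : 0 < T := by linarith
  have hlT1 : 1 ≤ Real.log T := by
    rw [Real.le_log_iff_exp_le hT0]
    linarith [Real.exp_one_lt_d9]
  have hT8 : 8 ≤ T ^ δ := by
    have h1 : ((8 : ℝ) ^ (1 / δ)) ^ δ ≤ T ^ δ :=
      Real.rpow_le_rpow (by positivity) (hT₂5.trans hT₂T) hδ.le
    rw [← Real.rpow_mul (by norm_num), one_div, inv_mul_cancel₀ hδ.ne', Real.rpow_one] at h1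
    exact h1
  obtain ⟨hz1, hz2, hz3⟩ := z_size hδ hδ2 (by linarith) hT8
  set z : ℕ := ⌈(2 * T) ^ (2 + δ)⌉₊ with hz
  have hzT : 2 * T ≤ z := by nlinarith
  have hzpos : (0 : ℝ) < z := by linarith
  have hz2' : 2 ≤ z := by
    have : (2 : ℝ) ≤ z := by linarith
    exact_mod_cast this
  have hlz_lo : 2 * Real.log T ≤ Real.log z := by
    have h1 : Real.log ((2 * T) ^ 2) ≤ Real.log z := Real.log_le_log (by positivity) hz3
    rw [Real.log_pow, Real.log_mul (by norm_num) hT0.ne'] at h1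
    push_cast at h1
    linarith
  have hlz0 : 0 < Real.log z := by linarith
  have hzN : z ≤ N := by
    have h1 : Real.log z ≤ Real.log N := by
      rw [← hulT]
      refine hz2.trans ?_
      apply mul_le_mul_of_nonneg_right _ hlT0.le
      linarith
    have h2 : (z : ℝ) ≤ N := (Real.log_le_log_iff hzpos hNpos).1 h1
    exact_mod_cast h2
  have hlNz : Real.log N ≤ z := by linarith
  -- alpha
  have hlu0 : 0 < Real.log u := Real.log_pos (by linarith)
  set α : ℝ := Real.log u / Real.log z with hα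
  have hα0 : 0 ≤ α := by positivity
  have hulN : u ≤ Real.log N := by
    rw [← hulT]
    nlinarith
  have hBlog : 16 / δ * Real.log u ≤ Real.log T := by
    have h1 : Real.log ((Real.log N) ^ (16 / δ)) ≤ Real.log T :=
      Real.log_le_log (by positivity) hNT
    rw [Real.log_rpow (by linarith)] at h1
    have h2 : Real.log u ≤ Real.log (Real.log N) := Real.log_le_log hu0 hulN
    have h3 : 16 / δ * Real.log u ≤ 16 / δ * Real.log (Real.log N) :=
      mul_le_mul_of_nonneg_left h2 (by positivity)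
    linarith
  have hα1 : α ≤ δ / 32 := by
    rw [hα, div_le_iff₀ hlz0]
    have h1 : δ / 32 * (2 * Real.log T) ≤ δ / 32 * Real.log z :=
      mul_le_mul_of_nonneg_left hlz_lo (by positivity)
    have h2 : δ / 16 * (16 / δ * Real.log u) ≤ δ / 16 * Real.log T :=
      mul_le_mul_of_nonneg_left hBlog (by positivity)
    have h3 : δ / 16 * (16 / δ * Real.log u) = Real.log u := by field_simp
    linarith
  have hzα : (z : ℝ) ^ α = u := by
    rw [Real.rpow_def_of_pos hzpos, hα, mul_div_cancel₀ _ hlz0.ne', Real.exp_log hu0]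
  have hNα : (N : ℝ) ^ (1 - α) ≤ N * Real.exp (-(u * Real.log u / (2 + 2 * δ))) := by
    have h1 : (N : ℝ) ^ (1 - α) = N * Real.exp (-(Real.log N * α)) := by
      rw [Real.rpow_sub hNpos, Real.rpow_one, Real.rpow_def_of_pos hNpos, Real.exp_neg,
        div_eq_mul_inv]
    rw [h1]
    apply mul_le_mul_of_nonneg_left _ hNpos.le
    apply Real.exp_le_exp.mpr
    apply neg_le_neg
    rw [div_le_iff₀ (by linarith), hα, ← hulT]
    have h2 : u * Real.log T * (Real.log u / Real.log z) * (2 + 2 * δ) =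
        u * Real.log u * ((2 + 2 * δ) * Real.log T / Real.log z) := by
      field_simp
    rw [h2]
    have h3 : 1 ≤ (2 + 2 * δ) * Real.log T / Real.log z := by
      rw [le_div_iff₀ hlz0]
      linarith
    exact le_mul_of_one_le_right (by positivity) h3
  have hlogu : 2 * ((K : ℝ) + C₃) / δ ≤ Real.log u := by
    rw [Real.le_log_iff_exp_le hu0]
    exact (hu₀4.trans hlarge.le)
  have habs := absorb_u (K := (K : ℝ)) (C := C₃) hδ hδ2 (Nat.cast_nonneg K) hC₃0.le
    (by linarith) hlogu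
  have hvv : vv δ N T = Real.exp (-((1 / 2 - δ) * (u * Real.log u))) :=
    vv_eq (by rw [← hu_def]; exact hu0)
  -- the scales
  set hi : ℝ := Real.exp T with hhi
  set lo : ℝ := (N : ℝ) ^ (K + 1) with hlo
  have hN3 : (3 : ℝ) ≤ N := hN₀3.trans hNN₀
  have hNL : L₀ ≤ N := ((le_max_left _ _).trans (le_max_left _ _)).trans hNN₀
  have hNlam : 2 * lam ≤ N := ((le_max_right _ _).trans (le_max_left _ _)).trans hNN₀
  have hNX₂ : X₂ ≤ N := by
    have : (X₂ : ℝ) ≤ N := ((le_max_left _ _).trans (le_max_right _ _)).trans hNN₀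
    exact_mod_cast this
  have hloL : L₀ ≤ lo := by
    calc L₀ ≤ N := hNL
      _ = (N : ℝ) ^ 1 := (pow_one _).symm
      _ ≤ (N : ℝ) ^ (K + 1) := pow_le_pow_right₀ hNr (by omega)
  have hNK : (1 : ℝ) ≤ (N : ℝ) ^ K := one_le_pow₀ hNr
  have hNNK : N ≤ N ^ K := by
    calc N = N ^ 1 := (pow_one _).symm
      _ ≤ N ^ K := Nat.pow_le_pow_right hN hK1
  have hlolam : (N : ℝ) ^ K + 1 ≤ lo / lam := by
    rw [le_div_iff₀ hlam0, hlo, pow_succ]
    nlinarith
  have hloglam : Real.log lam + T ≤ 2 * T := by linarith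
  set J : ℕ := ⌊2 * T / Real.log lam⌋₊ with hJ
  set S : Finset ℕ := (Finset.range (J + 1)).filter
    (fun j => lo / lam ≤ lam ^ j ∧ lam ^ j ≤ lam * hi) with hS
  set Es : Finset ℕ := E.filter (fun m => NSm z K N m) with hEs
  set Fs : ℕ → Finset ℕ := fun j => E.filter (fun m => ¬ NSm z K N m ∧ ε' <
    |P m (scl lam j) / Nat.primeCounting (scl lam j) - δ₀|) with hFs
  have hcover : E ⊆ Es ∪ S.biUnion Fs := by
    intro m hm
    by_cases hmn : NSm z K N m
    · exact Finset.mem_union_left _ (Finset.mem_filter.2 ⟨hm, hmn⟩)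
    · apply Finset.mem_union_right
      obtain ⟨x, hx1, hx2, hx3⟩ := hbad m hm
      obtain ⟨j, hj1, hj2, hj3⟩ := hcov (P m) (F.mono m) (F.nonneg m) lo hi hloL x
        (by rw [hlo]; exact_mod_cast hx1) hx2 hx3
      rw [Finset.mem_biUnion]
      refine ⟨j, ?_, ?_⟩
      · rw [hS, Finset.mem_filter, Finset.mem_range]
        refine ⟨?_, hj1, hj2⟩
        have h2 := Real.log_le_log (by positivity) hj2
        rw [Real.log_pow, Real.log_mul hlam0.ne' (Real.exp_pos _).ne', Real.log_exp] at h2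
        have h3 : (j : ℝ) ≤ 2 * T / Real.log lam := by
          rw [le_div_iff₀ hll]
          linarith
        have h4 : j ≤ ⌊2 * T / Real.log lam⌋₊ := Nat.le_floor h3
        omega
      · rw [hFs, Finset.mem_filter]
        exact ⟨hm, hmn, hj3⟩
  set W : ℝ := (N : ℝ) ^ (1 - α) * Real.exp (C₃ * u) with hW
  have hW0 : 0 ≤ W := by positivity
  have hFj : ∀ j ∈ S, ((Fs j).card : ℝ) ≤ C₂ * W / (z : ℝ) ^ 2 := by
    intro j hj
    rw [hS, Finset.mem_filter] at hj
    obtain ⟨_, hj1, hj2⟩ := hj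
    set x : ℕ := scl lam j with hx
    have hxle : (x : ℝ) ≤ lam ^ j := by
      rw [hx]; unfold scl
      exact Nat.floor_le (by positivity)
    have hxge : N ^ K ≤ x := by
      have h1 : lam ^ j < (x : ℝ) + 1 := by
        rw [hx]; unfold scl; exact Nat.lt_floor_add_one _
      have h2 : (N : ℝ) ^ K ≤ x := by linarith
      exact_mod_cast h2
    have hxN : N ≤ x := hNNK.trans hxge
    have hxX₂ : X₂ ≤ x := hNX₂.trans hxN
    have hN2 : 2 ≤ N := by
      have : (2 : ℝ) ≤ N := by linarith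
      exact_mod_cast this
    have hx2 : 2 ≤ x := hN2.trans hxN
    have hpi := primeCounting_pos hx2
    have hx0 : (0 : ℝ) < x := by exact_mod_cast (by omega : 0 < x)
    have hlogx : Real.log x ≤ 2 * T := by
      calc Real.log x ≤ Real.log (lam * hi) := Real.log_le_log hx0 (hxle.trans hj2)
        _ = Real.log lam + T := by
            rw [Real.log_mul hlam0.ne' (Real.exp_pos _).ne', Real.log_exp]
        _ ≤ 2 * T := hloglam
    have h1 := hsc (2 * T) (by linarith) x z N α hz1 hzN hlNz hxge hlogx hα0 hα1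
      (fun m => Dv m x) (F.sieve x (by omega)) (Fs j) (fun m hm => by
        have h1 := Finset.mem_filter.mp hm
        exact ⟨(hE m h1.1).1, (hE m h1.1).2, h1.2.1⟩) (fun m hm => by
        have h1 := Finset.mem_filter.mp hm
        exact fam_dev F (hE m h1.1).1 (by omega) (by exact_mod_cast (hE m h1.1).2.trans hxN)
          (hX₂ x hxX₂).2 (unnormalise hpi h1.2.2 (hX₂ x hxX₂).1))
    rw [hzα] at h1
    refine h1.trans ?_
    apply div_le_div_of_nonneg_right _ (by positivity)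
    rw [hW, mul_assoc]
    apply mul_le_mul_of_nonneg_left _ hC₂.le
    apply mul_le_mul_of_nonneg_left _ (by positivity)
    apply Real.exp_le_exp.mpr
    apply mul_le_mul_of_nonneg_right _ hu0.le
    linarith
  have hScard : (S.card : ℝ) ≤ (z : ℝ) ^ 2 := by
    have h1 : S.card ≤ J + 1 := (Finset.card_filter_le _ _).trans (by simp)
    have h2 : ((J : ℕ) : ℝ) ≤ 2 * T / Real.log lam := Nat.floor_le (by positivity)
    have h3 : 4 / Real.log lam ≤ T := hT₂3.trans hT₂T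
    have h5 : 2 * T / Real.log lam ≤ T ^ 2 / 2 := by
      calc 2 * T / Real.log lam = T / 2 * (4 / Real.log lam) := by ring
        _ ≤ T / 2 * T := by gcongr
        _ = T ^ 2 / 2 := by ring
    have h8 : (S.card : ℝ) ≤ (J : ℝ) + 1 := by exact_mod_cast h1
    have h9 : (2 * T) ^ 2 ≤ (z : ℝ) ^ 2 := pow_le_pow_left₀ (by positivity) hzT 2
    nlinarith
  have hEscard := hns N z α hz2' hzN hα0 (by linarith) Es (fun m hm => by
    have h1 := Finset.mem_filter.mp hm
    exact ⟨(hE m h1.1).1, (hE m h1.1).2, h1.2⟩)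
  rw [hzα] at hEscard
  have huK : u ^ K = Real.exp (K * Real.log u) := by
    rw [mul_comm, Real.exp_mul, Real.exp_log hu0, Real.rpow_natCast]
  have huK1 : 1 ≤ Real.exp (K * Real.log u) := Real.one_le_exp (by positivity)
  have hWvv : W * Real.exp (K * Real.log u) ≤ N * vv δ N T := by
    rw [hvv]
    calc W * Real.exp (K * Real.log u)
        = (N : ℝ) ^ (1 - α) * Real.exp (K * Real.log u) * Real.exp (C₃ * u) := by
          rw [hW]; ring
      _ ≤ N * Real.exp (-(u * Real.log u / (2 + 2 * δ))) * Real.exp (K * Real.log u) *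
          Real.exp (C₃ * u) := by gcongr
      _ = N * (Real.exp (-(u * Real.log u / (2 + 2 * δ))) * Real.exp (K * Real.log u) *
          Real.exp (C₃ * u)) := by ring
      _ ≤ N * Real.exp (-((1 / 2 - δ) * (u * Real.log u))) :=
          mul_le_mul_of_nonneg_left habs hNpos.le
  have e1 : (Es.card : ℝ) ≤ C₁ * (N * vv δ N T) := by
    calc (Es.card : ℝ) ≤ C₁ * (N : ℝ) ^ (1 - α) * u ^ K * Real.exp (C₁ * u) := hEscard
      _ ≤ C₁ * (N : ℝ) ^ (1 - α) * u ^ K * Real.exp (C₃ * u) := by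
          apply mul_le_mul_of_nonneg_left _ (by positivity)
          apply Real.exp_le_exp.mpr
          apply mul_le_mul_of_nonneg_right _ hu0.le
          linarith
      _ = C₁ * (W * Real.exp (K * Real.log u)) := by rw [huK, hW]; ring
      _ ≤ C₁ * (N * vv δ N T) := mul_le_mul_of_nonneg_left hWvv hC₁.le
  have e3 : ((S.biUnion Fs).card : ℝ) ≤ C₂ * (N * vv δ N T) := by
    calc ((S.biUnion Fs).card : ℝ) ≤ ((∑ j ∈ S, (Fs j).card : ℕ) : ℝ) := by
          exact_mod_cast Finset.card_biUnion_le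
      _ = ∑ j ∈ S, ((Fs j).card : ℝ) := by push_cast; rfl
      _ ≤ ∑ j ∈ S, C₂ * W / (z : ℝ) ^ 2 := Finset.sum_le_sum hFj
      _ = S.card * (C₂ * W / (z : ℝ) ^ 2) := by
          rw [Finset.sum_const, nsmul_eq_mul]
      _ ≤ (z : ℝ) ^ 2 * (C₂ * W / (z : ℝ) ^ 2) := by gcongr
      _ = C₂ * W := by field_simp
      _ ≤ C₂ * (W * Real.exp (K * Real.log u)) := by
          apply mul_le_mul_of_nonneg_left _ hC₂.le
          exact le_mul_of_one_le_right hW0 huK1
      _ ≤ C₂ * (N * vv δ N T) := mul_le_mul_of_nonneg_left hWvv hC₂.le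
  calc (E.card : ℝ) ≤ ((Es ∪ S.biUnion Fs).card : ℝ) := by
        exact_mod_cast Finset.card_le_card hcover
    _ ≤ (Es.card : ℝ) + ((S.biUnion Fs).card : ℝ) := by exact_mod_cast Finset.card_union_le _ _
    _ ≤ C₁ * (N * vv δ N T) + C₂ * (N * vv δ N T) := add_le_add e1 e3
    _ = C₃ * (N * vv δ N T) := by rw [hC₃]; ring
    _ ≤ max (Real.exp (u₀ * Real.log u₀)) C₃ * (N * vv δ N T) :=
        mul_le_mul_of_nonneg_right (le_max_right _ _) hNvv
    _ = _ := by ring

end Pool.Agent.ARV
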