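import Pool.Agent.ARV.Mid

set_option autoImplicit false

/-!
# ARV module UNI: all `T ≥ 2` (pure real analysis)

`B₀, A, C₁` from `hT δ`; `κ₁, Y₁, N₁` from `mid_range` (stub, `ARV/Mid.lean`) with `B₀`; `κ₂, Y₂`
from `hB (1 + δ/2) (δ/2)`; `N₂` such that `A log N ≤ (log N) ^ (1 + δ/2)` for `N ≥ N₂`; `N₀` the
maximum of `N₁`, `N₂`, `2`.  `κ = min κ₁ κ₂`, `Y₀ = max (Y₁, Y₂, 1)`,
`C = max (2 N₀) (C₁ + 2)`.
* `N < N₀`: `cnt ≤ 2 N ≤ 2 N₀ N ^ (1/2 + δ)` if `N ≥ 1` (`N ≤ N₀`, `N ^ (1/2 + δ) ≥ 1`); `N = 0`: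
  `cnt ≤ 0`.  (`vv ≥ 0`.)
* `N ≥ N₀`, `T ≤ (log N) ^ B₀`: `mid_range`.
* `N ≥ N₀`, `T ≥ (log N) ^ B₀`: `hT`; and
  `cnt N Y (N ^ A) ≤ cnt N Y (exp ((log N) ^ (1 + δ/2))) ≤ N exp (-Y ^ κ₂) + N ^ (1/2 + δ)`, because
  `N ^ A = exp (A log N)` and `1 - 1/(2 (1 + δ/2)) + δ/2 ≤ 1/2 + δ/4 + δ/2 ≤ 1/2 + δ`;
  `N ^ (1/2) ≤ N ^ (1/2 + δ)`.
-/

namespace Pool.Agent.ARV

open Filter

theorem unify (cnt : ℕ → ℕ → ℝ → ℝ)
    (hmono : ∀ (N Y : ℕ) (X X' : ℝ), X ≤ X' → cnt N Y X ≤ cnt N Y X')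
    (htriv : ∀ (N Y : ℕ) (X : ℝ), cnt N Y X ≤ 2 * N)
    (hB : ∀ B δ : ℝ, 1 ≤ B → 0 < δ → ∃ κ : ℝ, 0 < κ ∧ ∃ Y₀ : ℕ, ∀ N Y : ℕ, Y₀ ≤ Y →
      cnt N Y (Real.exp ((Real.log N) ^ B)) ≤
        N * Real.exp (-((Y : ℝ) ^ κ)) + (N : ℝ) ^ (1 - 1 / (2 * B) + δ))
    (hT : ∀ δ : ℝ, 0 < δ → δ < 1 / 2 → ∃ B₀ : ℝ, 1 ≤ B₀ ∧ ∃ A : ℕ, 1 ≤ A ∧ ∃ C : ℝ, 0 < C ∧
      ∀ N : ℕ, 1 ≤ N → ∀ T : ℝ, 2 ≤ T → (Real.log N) ^ B₀ ≤ T → ∀ Y : ℕ,
      cnt N Y (Real.exp T) ≤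
        cnt N Y ((N : ℝ) ^ A) + C * (N : ℝ) ^ (1 / 2 : ℝ) + C * N * vv δ N T)
    (δ : ℝ) (hδ : 0 < δ) (hδ2 : δ < 1 / 2) :
    ∃ κ : ℝ, 0 < κ ∧ ∃ C : ℝ, 0 < C ∧ ∃ Y₀ : ℕ, ∀ N Y : ℕ, Y₀ ≤ Y → ∀ T : ℝ, 2 ≤ T →
      cnt N Y (Real.exp T) ≤
        N * Real.exp (-((Y : ℝ) ^ κ)) + C * (N : ℝ) ^ (1 / 2 + δ) + C * N * vv δ N T := by
  obtain ⟨B₀, hB₀, A, hA, C₁, hC₁, h3⟩ := hT δ hδ hδ2
  obtain ⟨κ₁, hκ₁, Y₁, N₁, h1⟩ := mid_range cnt hmono hB B₀ δ hB₀ hδ hδ2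
  obtain ⟨κ₂, hκ₂, Y₂, h2⟩ := hB (1 + δ / 2) (δ / 2) (by linarith) (by linarith)
  -- the number `N₂`
  have hev : ∀ᶠ N : ℕ in atTop, (A : ℝ) * Real.log N ≤ (Real.log N) ^ (1 + δ / 2) := by
    have ha : Tendsto (fun N : ℕ => (Real.log (N : ℝ)) ^ (δ / 2)) atTop atTop :=
      (tendsto_rpow_atTop (by linarith : 0 < δ / 2)).comp
        (Real.tendsto_log_atTop.comp tendsto_natCast_atTop_atTop)
    filter_upwards [ha.eventually_ge_atTop (A : ℝ), eventually_ge_atTop 2] with N hN hN2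
    have hl : 0 < Real.log (N : ℝ) := Real.log_pos (by exact_mod_cast (by omega : 1 < N))
    rw [Real.rpow_add hl, Real.rpow_one, mul_comm]
    exact mul_le_mul_of_nonneg_left hN hl.le
  obtain ⟨N₂, hN₂⟩ := eventually_atTop.1 hev
  set N₀ : ℕ := max N₁ (max N₂ 2) with hN₀
  set κ : ℝ := min κ₁ κ₂ with hκ
  set C : ℝ := max (2 * (N₀ : ℝ)) (C₁ + 2) with hC
  have hC2 : C₁ + 2 ≤ C := le_max_right _ _
  have hCN : 2 * (N₀ : ℝ) ≤ C := le_max_left _ _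
  have hC0 : 0 < C := by linarith
  refine ⟨κ, lt_min hκ₁ hκ₂, C, hC0, max Y₁ (max Y₂ 1), fun N Y hY T hT2 => ?_⟩
  have hY1 : Y₁ ≤ Y := le_trans (le_max_left _ _) hY
  have hY2 : Y₂ ≤ Y := le_trans (le_trans (le_max_left _ _) (le_max_right _ _)) hY
  have hY3 : 1 ≤ Y := le_trans (le_trans (le_max_right _ _) (le_max_right _ _)) hY
  have hY1' : (1 : ℝ) ≤ Y := by exact_mod_cast hY3
  have hN0 : (0 : ℝ) ≤ N := Nat.cast_nonneg N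
  have hlT : 0 < Real.log T := Real.log_pos (by linarith)
  have hvv : 0 ≤ vv δ N T := by
    unfold vv
    exact Real.rpow_nonneg (div_nonneg (Real.log_natCast_nonneg N) hlT.le) _
  have he1 : Real.exp (-((Y : ℝ) ^ κ₁)) ≤ Real.exp (-((Y : ℝ) ^ κ)) := by
    apply Real.exp_le_exp.2
    have := Real.rpow_le_rpow_of_exponent_le hY1' (min_le_left κ₁ κ₂)
    linarith
  have he2 : Real.exp (-((Y : ℝ) ^ κ₂)) ≤ Real.exp (-((Y : ℝ) ^ κ)) := by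
    apply Real.exp_le_exp.2
    have := Real.rpow_le_rpow_of_exponent_le hY1' (min_le_right κ₁ κ₂)
    linarith
  have hR1 : 0 ≤ (N : ℝ) * Real.exp (-((Y : ℝ) ^ κ)) := by positivity
  have hR2 : 0 ≤ C * N * vv δ N T := by positivity
  have hR3 : 0 ≤ C * (N : ℝ) ^ (1 / 2 + δ) := by positivity
  rcases Nat.lt_or_ge N N₀ with hNN | hNN
  · -- small `N`
    have h4 := htriv N Y (Real.exp T)
    rcases Nat.eq_zero_or_pos N with h0 | h0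
    · subst h0
      simp only [Nat.cast_zero, mul_zero] at h4
      linarith
    · have h5 : (1 : ℝ) ≤ N := by exact_mod_cast h0
      have h6 : (1 : ℝ) ≤ (N : ℝ) ^ (1 / 2 + δ) := Real.one_le_rpow h5 (by linarith)
      have h7 : (N : ℝ) ≤ N₀ := by exact_mod_cast hNN.le
      have h8 : C ≤ C * (N : ℝ) ^ (1 / 2 + δ) := le_mul_of_one_le_right hC0.le h6
      linarith
  · have hNa : N₁ ≤ N := le_trans (le_max_left _ _) hNN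
    have hNb : N₂ ≤ N := le_trans (le_trans (le_max_left _ _) (le_max_right _ _)) hNN
    have hNc : 2 ≤ N := le_trans (le_trans (le_max_right _ _) (le_max_right _ _)) hNN
    have hN1 : (1 : ℝ) ≤ N := by exact_mod_cast (by omega : 1 ≤ N)
    have hNp : (0 : ℝ) < N := by linarith
    rcases le_total T ((Real.log N) ^ B₀) with hTB | hTB
    · -- `mid_range`
      have h4 := h1 N Y hNa hY1 T hT2 hTB
      have h5 : (N : ℝ) * Real.exp (-((Y : ℝ) ^ κ₁)) ≤ N * Real.exp (-((Y : ℝ) ^ κ)) :=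
        mul_le_mul_of_nonneg_left he1 hN0
      have h6 : (N : ℝ) ^ (1 / 2 + δ) ≤ C * (N : ℝ) ^ (1 / 2 + δ) :=
        le_mul_of_one_le_left (by positivity) (by linarith)
      have h7 : (N : ℝ) * vv δ N T ≤ C * N * vv δ N T := by
        rw [mul_assoc]
        exact le_mul_of_one_le_left (by positivity) (by linarith)
      linarith
    · have h4 := h3 N (by omega) T hT2 hTB Y
      have hpow : (N : ℝ) ^ A ≤ Real.exp ((Real.log N) ^ (1 + δ / 2)) := by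
        have ha : (N : ℝ) ^ A = Real.exp (A * Real.log N) := by
          rw [mul_comm, Real.exp_mul, Real.exp_log hNp, Real.rpow_natCast]
        rw [ha]
        exact Real.exp_le_exp.2 (hN₂ N hNb)
      have h5 := hmono N Y _ _ hpow
      have h6 := h2 N Y hY2
      have h7 : (N : ℝ) ^ (1 - 1 / (2 * (1 + δ / 2)) + δ / 2) ≤ (N : ℝ) ^ (1 / 2 + δ) := by
        refine Real.rpow_le_rpow_of_exponent_le hN1 ?_
        have hb : 1 / 2 - δ / 4 ≤ 1 / (2 * (1 + δ / 2)) := by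
          rw [le_div_iff₀ (by linarith)]
          nlinarith
        linarith
      have h8 : (N : ℝ) ^ (1 / 2 : ℝ) ≤ (N : ℝ) ^ (1 / 2 + δ) :=
        Real.rpow_le_rpow_of_exponent_le hN1 (by linarith)
      have h9 : (N : ℝ) * Real.exp (-((Y : ℝ) ^ κ₂)) ≤ N * Real.exp (-((Y : ℝ) ^ κ)) :=
        mul_le_mul_of_nonneg_left he2 hN0
      have h10 : C₁ * N * vv δ N T ≤ C * N * vv δ N T := by
        have : C₁ ≤ C := by linarith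
        gcongr
      have h11 : C₁ * (N : ℝ) ^ (1 / 2 : ℝ) ≤ C₁ * (N : ℝ) ^ (1 / 2 + δ) :=
        mul_le_mul_of_nonneg_left h8 hC₁.le
      have h12 : (C₁ + 2) * (N : ℝ) ^ (1 / 2 + δ) ≤ C * (N : ℝ) ^ (1 / 2 + δ) :=
        mul_le_mul_of_nonneg_right hC2 (by positivity)
      have h13 : 0 ≤ (N : ℝ) ^ (1 / 2 + δ) := by positivity
      have h14 : (C₁ + 2) * (N : ℝ) ^ (1 / 2 + δ) = C₁ * (N : ℝ) ^ (1 / 2 + δ) +
        2 * (N : ℝ) ^ (1 / 2 + δ) := by ring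
      linarith

end Pool.Agent.ARV
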