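import Pool.Agent.ARS.Fma
import Pool.Agent.ARS.Fin2
import Pool.Agent.ARU.Fin4
import Pool.Agent.ARV.Cnu
import Pool.Agent.ARV.Uni

set_option autoImplicit false

/-!
# ARV: the unified theorems for all integers and for one square class
-/

namespace Pool.Agent.ARV

open Filter Topology Pool.Agent.Helper8.ArtinLS Pool.Agent.Helper8.ArtinC Pool.Agent.Helper6
  Pool.Agent.ARX Pool.Agent.ARS

/-- the bad integers for the range `[Y, X]` -/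
noncomputable def ZBad (ε : ℝ) (N Y : ℕ) (X : ℝ) : Finset ℤ := by
  classical
  exact (Finset.Icc (-(N : ℤ)) N).filter (fun n : ℤ => n ≠ 0 ∧
          ∃ n' : ℤ, Squarefree n' ∧ (∃ k : ℤ, n = n' * k ^ 2) ∧
            ¬ (∀ x : ℕ, Y ≤ x → (x : ℝ) ≤ X → |share n x - dens n'| ≤ ε))

lemma mem_ZBad {ε : ℝ} {N Y : ℕ} {X : ℝ} {n : ℤ} : n ∈ ZBad ε N Y X ↔
    n.natAbs ≤ N ∧ n ≠ 0 ∧ ∃ n' : ℤ, Squarefree n' ∧ (∃ k : ℤ, n = n' * k ^ 2) ∧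
      ∃ x : ℕ, Y ≤ x ∧ (x : ℝ) ≤ X ∧ ε < |artinP n x / Nat.primeCounting x - dens n'| := by
  classical
  unfold ZBad
  rw [Finset.mem_filter, Finset.mem_Icc]
  constructor
  · rintro ⟨⟨h1, h1'⟩, h2, n', h3, h4, h5⟩
    refine ⟨by omega, h2, n', h3, h4, ?_⟩
    push Not at h5
    obtain ⟨x, hx1, hx2, hx3⟩ := h5
    rw [Pool.Agent.ARU.share_artinP] at hx3
    exact ⟨x, hx1, hx2, hx3⟩
  · rintro ⟨h1, h2, n', h3, h4, x, hx1, hx2, hx3⟩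
    refine ⟨⟨by omega, by omega⟩, h2, n', h3, h4, ?_⟩
    push Not
    refine ⟨x, hx1, hx2, ?_⟩
    rw [Pool.Agent.ARU.share_artinP]
    exact hx3

lemma ZBad_mono (ε : ℝ) (N Y : ℕ) (X X' : ℝ) (h : X ≤ X') :
    ((ZBad ε N Y X).card : ℝ) ≤ (ZBad ε N Y X').card := by
  have h1 : ZBad ε N Y X ⊆ ZBad ε N Y X' := by
    intro n hn
    rw [mem_ZBad] at hn ⊢
    obtain ⟨h1, h2, n', h3, h4, x, hx1, hx2, hx3⟩ := hn
    exact ⟨h1, h2, n', h3, h4, x, hx1, hx2.trans h, hx3⟩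
  exact_mod_cast Finset.card_le_card h1

lemma ZBad_triv (ε : ℝ) (N Y : ℕ) (X : ℝ) : ((ZBad ε N Y X).card : ℝ) ≤ 2 * N := by
  refine Pool.Agent.ARU.signed_count N (N : ℝ) (fun _ => True) (fun a _ E hE _ => ?_) _ ?_
  · have h6 : E ⊆ Finset.Icc 1 N := fun m hm => Finset.mem_Icc.mpr (hE m hm)
    have h7 := Finset.card_le_card h6
    rw [Nat.card_Icc] at h7
    exact_mod_cast (by omega : E.card ≤ N)
  · intro n hn
    rw [mem_ZBad] at hn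
    exact ⟨hn.2.1, hn.1, trivial⟩

/-- `count_u` for both signs -/
lemma count_u_signed (δ ε : ℝ) (hδ : 0 < δ) (hδ2 : δ < 1 / 2) (hε : 0 < ε) :
    ∃ B₀ : ℝ, 1 ≤ B₀ ∧ ∃ A : ℕ, 1 ≤ A ∧ ∃ C' : ℝ, 0 < C' ∧ ∀ N : ℕ, 1 ≤ N → ∀ T : ℝ, 2 ≤ T →
      (Real.log N) ^ B₀ ≤ T → 1 ≤ Real.log N → ∀ a : ℤ, (a = 1 ∨ a = -1) → ∀ E : Finset ℕ,
      (∀ m ∈ E, 1 ≤ m ∧ m ≤ N) →
      (∀ m ∈ E, ∃ x : ℕ, N ^ A ≤ x ∧ (x : ℝ) ≤ Real.exp T ∧
        ε < |artinP (a * (m : ℤ)) x / Nat.primeCounting x - CA|) →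
      (E.card : ℝ) ≤ C' * N * vv δ N T := by
  obtain ⟨C₁, F₁⟩ := fam_a 1 (Or.inl rfl)
  obtain ⟨C₂, F₂⟩ := fam_a (-1) (Or.inr rfl)
  obtain ⟨B₁, hB₁, A₁, hA₁, K₁, hK₁, h1⟩ := count_u F₁ δ ε hδ hδ2 hε
  obtain ⟨B₂, hB₂, A₂, hA₂, K₂, hK₂, h2⟩ := count_u F₂ δ ε hδ hδ2 hε
  refine ⟨max B₁ B₂, hB₁.trans (le_max_left _ _), max A₁ A₂, hA₁.trans (le_max_left _ _),
    max K₁ K₂, lt_of_lt_of_le hK₁ (le_max_left _ _), ?_⟩
  intro N hN T hT hNT hlN a ha E hE hbad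
  have hvv0 : 0 ≤ vv δ N T := vv_nonneg δ N (by linarith)
  have hNvv : 0 ≤ (N : ℝ) * vv δ N T := by positivity
  have hpow : ∀ B' : ℝ, B' ≤ max B₁ B₂ → (Real.log N) ^ B' ≤ T := fun B' hB' =>
    (Real.rpow_le_rpow_of_exponent_le hlN hB').trans hNT
  have hmono : ∀ K' : ℝ, K' ≤ max K₁ K₂ → K' * N * vv δ N T ≤ max K₁ K₂ * N * vv δ N T := by
    intro K' h4
    rw [mul_assoc, mul_assoc]
    exact mul_le_mul_of_nonneg_right h4 hNvv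
  have hbad' : ∀ A' : ℕ, A' ≤ max A₁ A₂ → ∀ m ∈ E, ∃ x : ℕ, N ^ A' ≤ x ∧ (x : ℝ) ≤ Real.exp T ∧
        ε < |artinP (a * (m : ℤ)) x / Nat.primeCounting x - CA| := by
    intro A' hA' m hm
    obtain ⟨x, hx1, hx2⟩ := hbad m hm
    exact ⟨x, (Nat.pow_le_pow_right hN hA').trans hx1, hx2⟩
  rcases ha with rfl | rfl
  · exact (h1 N hN T hT (hpow _ (le_max_left _ _)) E hE (hbad' _ (le_max_left _ _))).trans
      (hmono K₁ (le_max_left _ _))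
  · exact (h2 N hN T hT (hpow _ (le_max_right _ _)) E hE (hbad' _ (le_max_right _ _))).trans
      (hmono K₂ (le_max_right _ _))

/-- the range above `N ^ A` -/
lemma ZBad_high (ε : ℝ) (hε : 0 < ε) (δ : ℝ) (hδ : 0 < δ) (hδ2 : δ < 1 / 2) :
    ∃ B₀ : ℝ, 1 ≤ B₀ ∧ ∃ A : ℕ, 1 ≤ A ∧ ∃ C : ℝ, 0 < C ∧
      ∀ N : ℕ, 1 ≤ N → ∀ T : ℝ, 2 ≤ T → (Real.log N) ^ B₀ ≤ T → ∀ Y : ℕ,
      ((ZBad ε N Y (Real.exp T)).card : ℝ) ≤
        (ZBad ε N Y ((N : ℝ) ^ A)).card + C * (N : ℝ) ^ (1 / 2 : ℝ) + C * N * vv δ N T := by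
  classical
  obtain ⟨B₀, hB₀, A, hA, C₃, hC₃, h3⟩ := count_u_signed δ (ε / 2) hδ hδ2 (by positivity)
  set B : ℕ := ⌈2 / ε⌉₊ with hB
  set Cb : ℝ := 2 * C₃ + ((2 * B + 1 : ℕ) : ℝ) * 2 + 6 with hCb
  have hCb0 : 0 < Cb := by positivity
  refine ⟨B₀, hB₀, A, hA, Cb, hCb0, ?_⟩
  intro N hN T hT hNT Y
  have hNr : (1 : ℝ) ≤ N := by exact_mod_cast hN
  have hNr0 : (0 : ℝ) ≤ N := by linarith
  have hvv0 : 0 ≤ vv δ N T := vv_nonneg δ N (by linarith)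
  have hNvv : 0 ≤ (N : ℝ) * vv δ N T := by positivity
  have hh0 : (0 : ℝ) ≤ (N : ℝ) ^ (1 / 2 : ℝ) := by positivity
  have hh1 : (1 : ℝ) ≤ (N : ℝ) ^ (1 / 2 : ℝ) := Real.one_le_rpow hNr (by norm_num)
  have hz0 : (0 : ℝ) ≤ (ZBad ε N Y ((N : ℝ) ^ A)).card := Nat.cast_nonneg _
  rcases lt_or_ge (Real.log N) 1 with hlN | hlN
  · -- tiny `N`
    have h4 := ZBad_triv ε N Y (Real.exp T)
    have h5 : (N : ℝ) < 3 := by
      have h6 : (N : ℝ) < Real.exp 1 := by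
        rwa [Real.log_lt_iff_lt_exp (by linarith)] at hlN
      linarith [Real.exp_one_lt_d9]
    have h6 : Cb * 1 ≤ Cb * (N : ℝ) ^ (1 / 2 : ℝ) := mul_le_mul_of_nonneg_left hh1 hCb0.le
    have h7 : 0 ≤ Cb * N * vv δ N T := by positivity
    have h8 : 6 ≤ Cb := by
      rw [hCb]
      have h9 : 0 ≤ ((2 * B + 1 : ℕ) : ℝ) * 2 := by positivity
      linarith
    linarith
  set Q₃ : ℤ → Prop := fun n => ∃ x : ℕ, N ^ A ≤ x ∧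
    (x : ℝ) ≤ Real.exp T ∧
    ε / 2 < |artinP n x / Nat.primeCounting x - CA| with hQ₃
  set D₃ : Finset ℤ := (Finset.Icc (-(N : ℤ)) N).filter (fun n : ℤ => n ≠ 0 ∧ Q₃ n) with hD₃
  set D₄ : Finset ℤ := (Finset.Icc (-(N : ℤ)) N).filter (fun n : ℤ => n ≠ 0 ∧
    ∃ b : ℤ, b.natAbs ≤ B ∧ ∃ m : ℤ, n = b * m ^ 2) with hD₄
  have hD₃c : (D₃.card : ℝ) ≤ 2 * (C₃ * N * vv δ N T) := by
    refine Pool.Agent.ARU.signed_count N _ Q₃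
      (fun a ha E hE hQ => h3 N hN T hT hNT hlN a ha E hE hQ) D₃ ?_
    intro n hn
    rw [hD₃, Finset.mem_filter, Finset.mem_Icc] at hn
    exact ⟨hn.2.1, by omega, hn.2.2⟩
  have hD₄c : (D₄.card : ℝ) ≤ ((2 * B + 1 : ℕ) : ℝ) * 2 * (N : ℝ) ^ (1 / 2 : ℝ) := by
    have h4 := small_part_count B N D₄ (fun n hn => by
      rw [hD₄, Finset.mem_filter, Finset.mem_Icc] at hn
      exact ⟨by omega, hn.2.1⟩) (fun n hn => (Finset.mem_filter.mp hn).2.2)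
    have h5 : (D₄.card : ℝ) ≤ ((2 * B + 1 : ℕ) : ℝ) * ((Nat.sqrt N : ℝ) + 1) := by
      exact_mod_cast h4
    have h6 : (Nat.sqrt N : ℝ) ≤ (N : ℝ) ^ (1/2 : ℝ) := by
      rw [← Real.sqrt_eq_rpow]
      exact Real.nat_sqrt_le_real_sqrt
    calc (D₄.card : ℝ) ≤ ((2 * B + 1 : ℕ) : ℝ) * ((Nat.sqrt N : ℝ) + 1) := h5
      _ ≤ ((2 * B + 1 : ℕ) : ℝ) * (2 * (N : ℝ) ^ (1 / 2 : ℝ)) := by
          apply mul_le_mul_of_nonneg_left _ (Nat.cast_nonneg _)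
          linarith
      _ = _ := by ring
  have hsub : ZBad ε N Y (Real.exp T) ⊆ ZBad ε N Y ((N : ℝ) ^ A) ∪ D₃ ∪ D₄ := by
    intro n hn
    rw [mem_ZBad] at hn
    obtain ⟨hnN, hn0, n', hsq, ⟨k, hk⟩, x, hx1, hx2, hx3⟩ := hn
    have hnI : n ∈ Finset.Icc (-(N : ℤ)) N := by
      rw [Finset.mem_Icc]
      omega
    rw [Finset.mem_union, Finset.mem_union]
    by_cases hnB : n'.natAbs ≤ B
    · right
      rw [hD₄, Finset.mem_filter]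
      exact ⟨hnI, hn0, n', hnB, k, hk⟩
    left
    push Not at hnB
    have hclose := dens_close hsq hε hnB
    by_cases hxb : (x : ℝ) ≤ (N : ℝ) ^ A
    · left
      rw [mem_ZBad]
      exact ⟨hnN, hn0, n', hsq, ⟨k, hk⟩, x, hx1, hxb, hx3⟩
    · right
      rw [hD₃, Finset.mem_filter]
      have h8 := (not_le.mp hxb).le
      refine ⟨hnI, hn0, x, by exact_mod_cast h8, hx2, ?_⟩
      have h10 := abs_sub_le (artinP n x / Nat.primeCounting x) CA (dens n')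
      rw [abs_sub_comm] at hclose
      linarith
  have hcard : ((ZBad ε N Y (Real.exp T)).card : ℝ) ≤
      (ZBad ε N Y ((N : ℝ) ^ A)).card + D₃.card + D₄.card := by
    have h4 := Finset.card_le_card hsub
    have h5 := Finset.card_union_le (ZBad ε N Y ((N : ℝ) ^ A) ∪ D₃) D₄
    have h6 := Finset.card_union_le (ZBad ε N Y ((N : ℝ) ^ A)) D₃
    exact_mod_cast (by omega : (ZBad ε N Y (Real.exp T)).card ≤
      (ZBad ε N Y ((N : ℝ) ^ A)).card + D₃.card + D₄.card)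
  have hB0 : (0 : ℝ) ≤ ((2 * B + 1 : ℕ) : ℝ) := Nat.cast_nonneg _
  have h7 : ((2 * B + 1 : ℕ) : ℝ) * 2 * (N : ℝ) ^ (1 / 2 : ℝ) ≤ Cb * (N : ℝ) ^ (1 / 2 : ℝ) := by
    apply mul_le_mul_of_nonneg_right _ hh0
    rw [hCb]
    linarith
  have h8 : 2 * (C₃ * N * vv δ N T) ≤ Cb * N * vv δ N T := by
    have h9 : 2 * C₃ * ((N : ℝ) * vv δ N T) ≤ Cb * ((N : ℝ) * vv δ N T) := by
      apply mul_le_mul_of_nonneg_right _ hNvv
      rw [hCb]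
      linarith
    calc 2 * (C₃ * N * vv δ N T) = 2 * C₃ * ((N : ℝ) * vv δ N T) := by ring
      _ ≤ Cb * ((N : ℝ) * vv δ N T) := h9
      _ = _ := by ring
  linarith

/-- UNIFIED FULL RANGE, all integers. -/
theorem full_range_u (δ ε : ℝ) (hδ : 0 < δ) (hδ2 : δ < 1 / 2) (hε : 0 < ε) :
    ∃ κ : ℝ, 0 < κ ∧ ∃ C : ℝ, 0 < C ∧ ∃ Y₀ : ℕ, ∀ N Y : ℕ, Y₀ ≤ Y → ∀ T : ℝ, 2 ≤ T →
      ((ZBad ε N Y (Real.exp T)).card : ℝ) ≤
        N * Real.exp (-((Y : ℝ) ^ κ)) + C * (N : ℝ) ^ (1 / 2 + δ) + C * N * vv δ N T := by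
  refine unify (fun N Y X => ((ZBad ε N Y X).card : ℝ)) (ZBad_mono ε) (ZBad_triv ε) ?_ ?_
    δ hδ hδ2
  · intro B δ' hB hδ'
    obtain ⟨κ, hκ, Y₀, h⟩ := Pool.Agent.ARU.full_range B δ' ε hB hδ' hε
    refine ⟨κ, hκ, Y₀, fun N Y hY => ?_⟩
    have h1 := h N Y hY
    unfold ZBad
    convert h1
  · intro δ' hδ' hδ2'
    exact ZBad_high ε hε δ' hδ' hδ2'

/-- UNIFIED FULL RANGE, one square class. -/
theorem square_u (b : ℤ) (hb : Squarefree b) (hb4 : b % 4 = 1) (hb1 : b ≠ 1) (δ ε : ℝ)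
    (hδ : 0 < δ) (hδ2 : δ < 1 / 2) (hε : 0 < ε) :
    ∃ κ : ℝ, 0 < κ ∧ ∃ C : ℝ, 0 < C ∧ ∃ Y₀ : ℕ, ∀ M Y : ℕ, Y₀ ≤ Y → ∀ T : ℝ, 2 ≤ T →
      ((SqBad b ε M Y (Real.exp T)).card : ℝ) ≤
        M * Real.exp (-((Y : ℝ) ^ κ)) + C * (M : ℝ) ^ (1 / 2 + δ) + C * M * vv δ M T := by
  classical
  refine unify (fun N Y X => ((SqBad b ε N Y X).card : ℝ)) ?_ ?_ ?_ ?_ δ hδ hδ2
  · intro N Y X X' h
    have h1 : SqBad b ε N Y X ⊆ SqBad b ε N Y X' := by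
      intro m hm
      rw [mem_SqBad] at hm ⊢
      obtain ⟨h1, x, hx1, hx2, hx3⟩ := hm
      exact ⟨h1, x, hx1, hx2.trans h, hx3⟩
    exact_mod_cast Finset.card_le_card h1
  · intro N Y X
    have h1 := card_SqBad_le b ε N Y X
    have h2 : (0 : ℝ) ≤ N := Nat.cast_nonneg N
    show ((SqBad b ε N Y X).card : ℝ) ≤ 2 * N
    linarith
  · intro B δ' hB hδ'
    exact square_B b hb hb4 hb1 B δ' ε hB hδ' hε
  · intro δ' hδ' hδ2'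
    have hmain : Tendsto (fun x : ℕ => artinE b x / Nat.primeCounting x) atTop (𝓝 (dens b)) :=
      (dens_eq_dlt hb4).2 (Pool.Agent.Helper7.main_term hb hb4)
    obtain ⟨f, Cf, F⟩ := fam_b b hb hb4 (dens b) hmain
    obtain ⟨B₀, hB₀, A, hA, C₃, hC₃, h3⟩ := count_u F δ' ε hδ' hδ2' hε
    refine ⟨B₀, hB₀, A, hA, C₃, hC₃, ?_⟩
    intro N hN T hT hNT Y
    have hNr0 : (0 : ℝ) ≤ N := Nat.cast_nonneg N
    set D₃ : Finset ℕ := (Finset.Icc 1 N).filter (fun m : ℕ => ∃ x : ℕ, N ^ A ≤ x ∧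
      (x : ℝ) ≤ Real.exp T ∧
      ε < |artinP (b * (m : ℤ) ^ 2) x / Nat.primeCounting x - dens b|) with hD₃
    have h6 : (D₃.card : ℝ) ≤ C₃ * N * vv δ' N T := by
      apply h3 N hN T hT hNT D₃
      · intro m hm
        rw [hD₃, Finset.mem_filter, Finset.mem_Icc] at hm
        exact hm.1
      · intro m hm
        rw [hD₃, Finset.mem_filter] at hm
        exact hm.2
    have hsub : SqBad b ε N Y (Real.exp T) ⊆ SqBad b ε N Y ((N : ℝ) ^ A) ∪ D₃ := by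
      intro m hm'
      rw [mem_SqBad] at hm'
      obtain ⟨hmI, x, hx1, hx2, hx3⟩ := hm'
      rw [Finset.mem_union]
      by_cases hx : (x : ℝ) ≤ (N : ℝ) ^ A
      · left
        rw [mem_SqBad]
        exact ⟨hmI, x, hx1, hx, hx3⟩
      · right
        rw [hD₃, Finset.mem_filter, Finset.mem_Icc]
        refine ⟨hmI, x, ?_, hx2, hx3⟩
        have h8 := (not_le.mp hx).le
        exact_mod_cast h8
    have h7 : ((SqBad b ε N Y (Real.exp T)).card : ℝ) ≤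
        (SqBad b ε N Y ((N : ℝ) ^ A)).card + D₃.card := by
      exact_mod_cast (Finset.card_le_card hsub).trans (Finset.card_union_le _ _)
    have h9 : 0 ≤ C₃ * (N : ℝ) ^ (1 / 2 : ℝ) := by positivity
    show ((SqBad b ε N Y (Real.exp T)).card : ℝ) ≤
      ((SqBad b ε N Y ((N : ℝ) ^ A)).card : ℝ) + C₃ * (N : ℝ) ^ (1 / 2 : ℝ) + C₃ * N * vv δ' N T
    linarith

end Pool.Agent.ARV
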