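import Pool.Agent.ARV.Defs

set_option autoImplicit false

/-!
# ARV module MID: the range `T ≤ (log N) ^ B₀` (pure real analysis)

Let `L = log N`, `N ≥ N₀ = 16` (so `L > e`, `log L > 0`); apply `hB` with `B = 1`, `δ` and with
`B = 1 + i δ`, `1 ≤ i ≤ n = ⌈B₀ / δ⌉₊`, and `δ₁ = δ / (2 B₀)`; take the minimum of the finitely many
`κ` (smaller `κ` weakens the bound for `Y ≥ 1`) and the maximum of the `Y₀` (and `1`); for instance
prove first, by induction on `n`, that there are `κ`, `Y₀` which serve all `i ≤ n` at once.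
* `T ≤ L`: `exp T ≤ exp (L ^ 1)`, `hmono`, `hB 1 δ`: `1 - 1/(2 * 1) + δ = 1/2 + δ`.
* `L < T ≤ L ^ B₀`: put `b = log T / log L ∈ (1, B₀]`, `i = ⌈(b - 1) / δ⌉₊`, `B = 1 + i δ`,
  `b ≤ B ≤ b + δ ≤ b (1 + δ)`, so `T = L ^ b ≤ L ^ B` and
  `1/(2B) ≥ 1/(2 b (1 + δ)) ≥ (1 - δ)/(2 b)`, `1 - 1/(2B) + δ₁ ≤ 1 - (1/2 - δ)/b`
  (`δ₁ ≤ δ/(2b)`).  Finally `N ^ (-(1/2 - δ)/b) ≤ vv δ N T`: with `u = L / log T` (`log T ≥ 1`
  because `T > L > e`) `u ≤ L` and `u log u ≤ u log L = L / b` (if `u ≤ 1` then `u log u ≤ 0`).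
-/

namespace Pool.Agent.ARV

private theorem mid_unif (cnt : ℕ → ℕ → ℝ → ℝ)
    (hB : ∀ B δ : ℝ, 1 ≤ B → 0 < δ → ∃ κ : ℝ, 0 < κ ∧ ∃ Y₀ : ℕ, ∀ N Y : ℕ, Y₀ ≤ Y →
      cnt N Y (Real.exp ((Real.log N) ^ B)) ≤
        N * Real.exp (-((Y : ℝ) ^ κ)) + (N : ℝ) ^ (1 - 1 / (2 * B) + δ))
    (δ δ₁ : ℝ) (hδ : 0 < δ) (hδ₁ : 0 < δ₁) (n : ℕ) :
    ∃ κ : ℝ, 0 < κ ∧ ∃ Y₀ : ℕ, 1 ≤ Y₀ ∧ ∀ i : ℕ, i ≤ n → ∀ N Y : ℕ, Y₀ ≤ Y →
      cnt N Y (Real.exp ((Real.log N) ^ (1 + (i : ℝ) * δ))) ≤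
        N * Real.exp (-((Y : ℝ) ^ κ)) + (N : ℝ) ^ (1 - 1 / (2 * (1 + (i : ℝ) * δ)) + δ₁) := by
  induction n with
  | zero =>
    obtain ⟨κ, hκ, Y₀, h⟩ := hB 1 δ₁ le_rfl hδ₁
    refine ⟨κ, hκ, max Y₀ 1, le_max_right _ _, ?_⟩
    intro i hi N Y hY
    have hi0 : i = 0 := by omega
    subst hi0
    have h1 := h N Y ((le_max_left _ _).trans hY)
    simpa using h1
  | succ n ih =>
    obtain ⟨κ, hκ, Y₀, hY₀, h⟩ := ih
    have hB1 : (1 : ℝ) ≤ 1 + ((n + 1 : ℕ) : ℝ) * δ := by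
      have : 0 ≤ ((n + 1 : ℕ) : ℝ) * δ := by positivity
      linarith
    obtain ⟨κ', hκ', Y₁, h'⟩ := hB (1 + ((n + 1 : ℕ) : ℝ) * δ) δ₁ hB1 hδ₁
    have hexp : ∀ (Y : ℕ), 1 ≤ Y → ∀ k : ℝ, min κ κ' ≤ k →
        Real.exp (-((Y : ℝ) ^ k)) ≤ Real.exp (-((Y : ℝ) ^ (min κ κ'))) := by
      intro Y hY k hk
      apply Real.exp_le_exp.2
      apply neg_le_neg
      exact Real.rpow_le_rpow_of_exponent_le (by exact_mod_cast hY) hk
    refine ⟨min κ κ', lt_min hκ hκ', max Y₀ Y₁, hY₀.trans (le_max_left _ _), ?_⟩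
    intro i hi N Y hY
    have hY1 : 1 ≤ Y := hY₀.trans ((le_max_left _ _).trans hY)
    rcases Nat.lt_or_ge n i with hlt | hge
    · have hi' : i = n + 1 := by omega
      subst hi'
      refine (h' N Y ((le_max_right _ _).trans hY)).trans ?_
      have := mul_le_mul_of_nonneg_left (hexp Y hY1 κ' (min_le_right _ _))
        (Nat.cast_nonneg (α := ℝ) N)
      linarith
    · refine (h i hge N Y ((le_max_left _ _).trans hY)).trans ?_
      have := mul_le_mul_of_nonneg_left (hexp Y hY1 κ (min_le_left _ _))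
        (Nat.cast_nonneg (α := ℝ) N)
      linarith

theorem mid_range (cnt : ℕ → ℕ → ℝ → ℝ)
    (hmono : ∀ (N Y : ℕ) (X X' : ℝ), X ≤ X' → cnt N Y X ≤ cnt N Y X')
    (hB : ∀ B δ : ℝ, 1 ≤ B → 0 < δ → ∃ κ : ℝ, 0 < κ ∧ ∃ Y₀ : ℕ, ∀ N Y : ℕ, Y₀ ≤ Y →
      cnt N Y (Real.exp ((Real.log N) ^ B)) ≤
        N * Real.exp (-((Y : ℝ) ^ κ)) + (N : ℝ) ^ (1 - 1 / (2 * B) + δ))
    (B₀ δ : ℝ) (hB₀ : 1 ≤ B₀) (hδ : 0 < δ) (hδ2 : δ < 1 / 2) :
    ∃ κ : ℝ, 0 < κ ∧ ∃ Y₀ N₀ : ℕ, ∀ N Y : ℕ, N₀ ≤ N → Y₀ ≤ Y → ∀ T : ℝ, 2 ≤ T →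
      T ≤ (Real.log N) ^ B₀ →
      cnt N Y (Real.exp T) ≤
        N * Real.exp (-((Y : ℝ) ^ κ)) + (N : ℝ) ^ (1 / 2 + δ) + N * vv δ N T := by
  have hδ₁ : 0 < δ / (2 * B₀) := by positivity
  obtain ⟨κ, hκ, Y₀, hY₀, h⟩ := mid_unif cnt hB δ (δ / (2 * B₀)) hδ hδ₁ ⌈B₀ / δ⌉₊
  obtain ⟨κ', hκ', Y₁, h'⟩ := hB 1 δ le_rfl hδ
  have hexp : ∀ (Y : ℕ), 1 ≤ Y → ∀ k : ℝ, min κ κ' ≤ k →
      Real.exp (-((Y : ℝ) ^ k)) ≤ Real.exp (-((Y : ℝ) ^ (min κ κ'))) := by
    intro Y hY k hk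
    apply Real.exp_le_exp.2
    apply neg_le_neg
    exact Real.rpow_le_rpow_of_exponent_le (by exact_mod_cast hY) hk
  refine ⟨min κ κ', lt_min hκ hκ', max Y₀ Y₁, 16, ?_⟩
  intro N Y hN hY T hT hTB
  have hY1 : 1 ≤ Y := hY₀.trans ((le_max_left _ _).trans hY)
  have hN' : (16 : ℝ) ≤ N := by exact_mod_cast hN
  have hN0 : (0 : ℝ) < N := by linarith
  set L : ℝ := Real.log N with hL
  have hLe : Real.exp 1 < L := by
    have h1 : Real.log 16 ≤ L := Real.log_le_log (by norm_num) hN'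
    have h2 : Real.log 16 = 4 * Real.log 2 := by
      rw [show (16 : ℝ) = 2 ^ (4 : ℕ) by norm_num, Real.log_pow]
      norm_num
    have h3 := Real.log_two_gt_d9
    have h4 := Real.exp_one_lt_d9
    linarith
  have hL0 : 0 < L := (Real.exp_pos 1).trans hLe
  have hL1 : 1 < L := lt_trans (by
    have := Real.add_one_lt_exp (x := (1 : ℝ)) one_ne_zero
    linarith) hLe
  have hlogL : 1 < Real.log L := by
    rw [Real.lt_log_iff_exp_lt hL0]
    exact hLe
  have hT0 : 0 < T := by linarith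
  have hlogT : 0 < Real.log T := Real.log_pos (by linarith)
  have hu : 0 < L / Real.log T := by positivity
  have hvv : 0 ≤ (N : ℝ) * vv δ N T := by
    unfold vv
    have := Real.rpow_nonneg hu.le (-((1 / 2 - δ) * (L / Real.log T)))
    positivity
  have hNp : 0 ≤ (N : ℝ) ^ (1 / 2 + δ) := Real.rpow_nonneg hN0.le _
  rcases le_or_gt T L with hTL | hTL
  · have h1 : cnt N Y (Real.exp T) ≤ cnt N Y (Real.exp (L ^ (1 : ℝ))) :=
      hmono _ _ _ _ (Real.exp_le_exp.2 (by rwa [Real.rpow_one]))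
    have h2 := h' N Y ((le_max_right _ _).trans hY)
    have h3 := hexp Y hY1 κ' (min_le_right _ _)
    have h4 : (1 - 1 / (2 * 1) + δ : ℝ) = 1 / 2 + δ := by ring
    rw [h4] at h2
    have h5 : (N : ℝ) * Real.exp (-((Y : ℝ) ^ κ')) ≤
        N * Real.exp (-((Y : ℝ) ^ (min κ κ'))) := by gcongr
    linarith
  · set b : ℝ := Real.log T / Real.log L with hb
    have hlogL0 : 0 < Real.log L := by linarith
    have hb1 : 1 < b := by
      rw [hb, one_lt_div hlogL0]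
      exact Real.log_lt_log hL0 hTL
    have hbT : Real.log T = b * Real.log L := by
      rw [hb]
      field_simp
    have hbB : b ≤ B₀ := by
      rw [hb, div_le_iff₀ hlogL0, ← Real.log_rpow hL0]
      exact Real.log_le_log hT0 hTB
    set i : ℕ := ⌈(b - 1) / δ⌉₊ with hi
    have hi1 : b - 1 ≤ (i : ℝ) * δ := by
      have := Nat.le_ceil ((b - 1) / δ)
      rwa [div_le_iff₀ hδ] at this
    have hi2 : (i : ℝ) * δ < b - 1 + δ := by
      have h1 : (i : ℝ) < (b - 1) / δ + 1 := Nat.ceil_lt_add_one (div_nonneg (by linarith) hδ.le)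
      calc (i : ℝ) * δ < ((b - 1) / δ + 1) * δ := by gcongr
        _ = b - 1 + δ := by field_simp
    have hin : i ≤ ⌈B₀ / δ⌉₊ := Nat.ceil_mono (by gcongr; linarith)
    set B : ℝ := 1 + (i : ℝ) * δ with hBd
    have hbB' : b ≤ B := by rw [hBd]; linarith
    have hBb : B < b + δ := by rw [hBd]; linarith
    have hTB' : T ≤ L ^ B := by
      have h1 : T = L ^ b := by
        rw [Real.rpow_def_of_pos hL0, mul_comm, ← hbT, Real.exp_log hT0]
      rw [h1]
      exact Real.rpow_le_rpow_of_exponent_le hL1.le hbB'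
    have h1 : cnt N Y (Real.exp T) ≤ cnt N Y (Real.exp (L ^ B)) :=
      hmono _ _ _ _ (Real.exp_le_exp.2 hTB')
    have h2 := h i hin N Y ((le_max_left _ _).trans hY)
    have h3 := hexp Y hY1 κ (min_le_left _ _)
    have h5 : (N : ℝ) * Real.exp (-((Y : ℝ) ^ κ)) ≤
        N * Real.exp (-((Y : ℝ) ^ (min κ κ'))) := by gcongr
    have h6 : (N : ℝ) ^ (1 - 1 / (2 * B) + δ / (2 * B₀)) ≤ N * vv δ N T := by
      set u : ℝ := L / Real.log T with hud
      have hvve : (N : ℝ) * vv δ N T = Real.exp (L - (1 / 2 - δ) * (u * Real.log u)) := by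
        have e1 : vv δ N T = Real.exp (Real.log u * (-((1 / 2 - δ) * u))) := by
          unfold vv
          rw [← hL, ← hud, Real.rpow_def_of_pos hu]
        have e2 : (N : ℝ) = Real.exp L := by rw [hL, Real.exp_log hN0]
        rw [e1]
        nth_rewrite 1 [e2]
        rw [← Real.exp_add]
        congr 1
        ring
      rw [hvve, Real.rpow_def_of_pos hN0, ← hL]
      apply Real.exp_le_exp.2
      have hb0 : 0 < b := by linarith
      have hB0 : 0 < B := by linarith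
      have hB00 : 0 < B₀ := by linarith
      have hkey : u * Real.log u ≤ L / b := by
        rcases le_or_gt u 1 with hu1 | hu1
        · have : Real.log u ≤ 0 := Real.log_nonpos hu.le hu1
          have h7 : u * Real.log u ≤ 0 := mul_nonpos_of_nonneg_of_nonpos hu.le this
          have h8 : 0 ≤ L / b := by positivity
          linarith
        · have hlT1 : 1 ≤ Real.log T := by
            have := Real.log_lt_log hL0 hTL
            linarith
          have huL : u ≤ L := by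
            rw [hud, div_le_iff₀ hlogT]
            nlinarith
          have h7 : Real.log u ≤ Real.log L := Real.log_le_log hu huL
          calc u * Real.log u ≤ u * Real.log L := by gcongr
            _ = L / b := by
              rw [hud, hb]
              field_simp
      have h8 : (1 - δ) / (2 * b) ≤ 1 / (2 * B) := by
        rw [div_le_div_iff₀ (by positivity) (by positivity)]
        have h9 : (1 - δ) * B ≤ b := by
          have h10 : (1 - δ) * B ≤ (1 - δ) * (b + δ) :=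
            mul_le_mul_of_nonneg_left hBb.le (by linarith)
          nlinarith [mul_pos hδ (by linarith : (0 : ℝ) < b - 1), mul_pos hδ hδ]
        linarith
      have h9 : δ / (2 * B₀) ≤ δ / (2 * b) := by gcongr
      have h10 : (1 / 2 - δ) * (1 / b) ≤ 1 / (2 * B) - δ / (2 * B₀) := by
        have e3 : (1 / 2 - δ) * (1 / b) = (1 - δ) / (2 * b) - δ / (2 * b) := by
          field_simp
          ring
        rw [e3]
        linarith
      have h11 : (1 / 2 - δ) * (u * Real.log u) ≤ (1 / 2 - δ) * (L / b) :=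
        mul_le_mul_of_nonneg_left hkey (by linarith)
      have h12 : (1 / 2 - δ) * (L / b) = L * ((1 / 2 - δ) * (1 / b)) := by ring
      have h13 : L * ((1 / 2 - δ) * (1 / b)) ≤ L * (1 / (2 * B) - δ / (2 * B₀)) :=
        mul_le_mul_of_nonneg_left h10 hL0.le
      nlinarith
    linarith

end Pool.Agent.ARV
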