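import Pool.Agent.ARS.Rgt

set_option autoImplicit false

/-!
# ARV module RGU: one scale, rough variable, sharp exponent

Copy of `Pool.Agent.ARS.rough_T` (`ARS/Rgt.lean`) with other parameters.  `ℓ = log x`, `K' = log M`,
`r = ⌈2 ℓ / K'⌉`, `R = r ^ (Nat.log z (M ^ r))`.  Take `K = ⌈120 / η⌉₊` (so `5 / (2 K) ≤ η / 48`) and
`T₀ ≥ X₁, 56, 16 / ε ^ 2`.
As there `|E| ^ r ≤ R G ^ r (56 M x)`, `x ≤ exp (r K' / 2)`, `G ≤ T ^ 5`.
* `r ≤ 2 ℓ / K' + 1 ≤ T / 2 + 1 ≤ T` (`K' ≥ 4`, because `M ≥ z ≥ T ^ 2 ≥ 56 ^ 2`), so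
  `log r ≤ log T ≤ log z / (2 + η)` and `R ≤ exp (r K' / (2 + η))`,
  `1 / (2 + η) ≤ 1/2 - η/6` (`η ≤ 1`);
* `G ≤ T ^ 5 ≤ z ^ (5/2) ≤ M ^ (5 / (2 K)) ≤ M ^ (η / 48)`;
* `r ≥ 2 ℓ / K' ≥ 2 K`, so `M ≤ (M ^ (1 / (2 K))) ^ r ≤ (M ^ (η/240)) ^ r`, and
  `56 ≤ T ≤ M ^ (1 / (2K)) ≤ (M ^ (η / 240)) ^ r`.
The sum of the exponents is at most `1/2 + 1/2 - η/6 + η/48 + η/240 + η/240 ≤ 1 - η/16`.
-/

namespace Pool.Agent.ARV

open Pool.Agent.ARS Pool.Agent.Helper8.ArtinLS Pool.Agent.Helper6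

private lemma rgu_natLog {b n : ℕ} (hb : 2 ≤ b) (hn : n ≠ 0) :
    (Nat.log b n : ℝ) * Real.log b ≤ Real.log n := by
  have h1 : b ^ Nat.log b n ≤ n := Nat.pow_log_le_self b hn
  have h2 : ((b : ℝ)) ^ Nat.log b n ≤ n := by exact_mod_cast h1
  rw [← Real.log_pow]
  have hb0 : (0 : ℝ) < b := by exact_mod_cast (by omega : 0 < b)
  exact Real.log_le_log (by positivity) h2

theorem rough_u (η ε : ℝ) (hη : 0 < η) (hη1 : η ≤ 1) (hε : 0 < ε) :
    ∃ K : ℕ, 1 ≤ K ∧ ∃ T₀ : ℝ, 2 ≤ T₀ ∧ ∀ T : ℝ, T₀ ≤ T → ∀ x z M : ℕ,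
      T ^ (2 + η) ≤ (z : ℝ) → z ^ K ≤ M → M ^ K ≤ x →
      Real.log x ≤ T → ∀ g : ℕ → ℝ, Sieve x g → ∀ s : ℕ, ∀ E : Finset ℕ,
      (∀ m ∈ E, 1 ≤ m ∧ m ≤ M) → (∀ m ∈ E, ∀ p : ℕ, p.Prime → p ∣ m → z ≤ p) →
      (∀ m ∈ E, ε * Nat.primeCounting x ≤ |g (s * m)|) →
      (E.card : ℝ) ≤ (M : ℝ) ^ (1 - η / 16) := by
  obtain ⟨X₁, hX₁3, hX₁⟩ := pi_lower
  set N := ⌈120 / η⌉₊ with hNdef
  have hNη : 120 / η ≤ (N : ℝ) := Nat.le_ceil _
  have hN120 : (120 : ℝ) ≤ N := by
    refine le_trans ?_ hNη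
    rw [le_div_iff₀ hη]
    linarith
  have hN0 : (0 : ℝ) < N := by linarith
  have hN1 : 1 ≤ N := by
    have h1 : (1 : ℝ) ≤ N := by linarith
    exact_mod_cast h1
  have hNη' : 120 ≤ η * N := by
    rw [div_le_iff₀ hη] at hNη
    linarith
  refine ⟨N, hN1, max (max (X₁ : ℝ) 56) (16 / ε ^ 2), ?_, ?_⟩
  · exact le_trans (by norm_num) ((le_max_right _ _).trans (le_max_left _ _))
  intro T hT x z M hTz hzM hMx hxT g hg s E hE hrough hbad
  have hTX : (X₁ : ℝ) ≤ T := (le_max_left _ _).trans ((le_max_left _ _).trans hT)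
  have hT56 : (56 : ℝ) ≤ T := (le_max_right _ _).trans ((le_max_left _ _).trans hT)
  have hTε : 16 / ε ^ 2 ≤ T := (le_max_right _ _).trans hT
  have hT0 : (0 : ℝ) < T := by linarith
  have hT1 : (1 : ℝ) ≤ T := by linarith
  have hTz' : T ≤ z := by
    refine le_trans ?_ hTz
    calc T = T ^ (1 : ℝ) := (Real.rpow_one T).symm
      _ ≤ T ^ (2 + η) := Real.rpow_le_rpow_of_exponent_le hT1 (by linarith)
  have hz0 : (0 : ℝ) < z := by linarith
  have hz1 : (1 : ℝ) ≤ z := by linarith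
  have hz2 : 2 ≤ z := by
    have h1 : (2 : ℝ) ≤ z := by linarith
    exact_mod_cast h1
  have hzM' : (z : ℝ) ^ N ≤ M := by exact_mod_cast hzM
  have hMx' : (M : ℝ) ^ N ≤ x := by exact_mod_cast hMx
  have hzM1 : (z : ℝ) ≤ M := (le_self_pow₀ hz1 (by omega)).trans hzM'
  have hM1r : (1 : ℝ) ≤ M := by linarith
  have hM0 : (0 : ℝ) < M := by linarith
  have hM1 : 1 ≤ M := by exact_mod_cast hM1r
  have hMx1 : (M : ℝ) ≤ x := (le_self_pow₀ hM1r (by omega)).trans hMx'
  have hx1r : (1 : ℝ) ≤ x := by linarith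
  have hx0 : (0 : ℝ) < x := by linarith
  have hx1 : 1 ≤ x := by exact_mod_cast hx1r
  have hxX : X₁ ≤ x := by
    have h1 : (X₁ : ℝ) ≤ x := by linarith
    exact_mod_cast h1
  set LT := Real.log T with hLT
  set Z := Real.log z with hZ
  set K := Real.log M with hKdef
  set ℓ := Real.log x with hℓdef
  have hLT1 : 1 ≤ LT := by
    rw [hLT, Real.le_log_iff_exp_le hT0]
    have := Real.exp_one_lt_d9
    linarith
  have hZL : (2 + η) * LT ≤ Z := by
    have h1 := Real.log_le_log (by positivity) hTz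
    rw [Real.log_rpow hT0] at h1
    exact h1
  have hZL2 : 2 * LT ≤ Z := by
    have h1 : 0 ≤ η * LT := by positivity
    linarith
  have hKN : N * Z ≤ K := by
    have h1 := Real.log_le_log (by positivity) hzM'
    rw [Real.log_pow] at h1
    exact h1
  have hℓN : N * K ≤ ℓ := by
    have h1 := Real.log_le_log (by positivity) hMx'
    rw [Real.log_pow] at h1
    exact h1
  have hZ0 : 0 < Z := by linarith
  have hKZ : 120 * Z ≤ K := (mul_le_mul_of_nonneg_right hN120 hZ0.le).trans hKN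
  have hK240 : 240 ≤ K := by linarith
  have hK1 : 1 ≤ K := by linarith
  have hℓK : 120 * K ≤ ℓ := (mul_le_mul_of_nonneg_right hN120 (by linarith)).trans hℓN
  have hK0 : 0 < K := by linarith
  have hℓ1 : 1 ≤ ℓ := by linarith
  have hℓ0 : 0 < ℓ := by linarith
  have hexpK : Real.exp K = M := Real.exp_log hM0
  have hexpl : Real.exp ℓ = x := Real.exp_log hx0
  have hexpT : Real.exp LT = T := Real.exp_log hT0
  have hπ := hX₁ x hxX
  -- the number r
  set r := ⌈2 * ℓ / K⌉₊ with hrdef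
  have hr_lo : 2 * ℓ / K ≤ r := Nat.le_ceil _
  have hr_hi : (r : ℝ) < 2 * ℓ / K + 1 := Nat.ceil_lt_add_one (by positivity)
  have hrL_lo : 2 * ℓ ≤ r * K := by rwa [div_le_iff₀ hK0] at hr_lo
  have hrL_hi : r * K ≤ 2 * ℓ + K := by
    have h5 := mul_le_mul_of_nonneg_right hr_hi.le hK0.le
    have h6 : (2 * ℓ / K + 1) * K = 2 * ℓ + K := by field_simp
    linarith
  have hrN : 2 * (N : ℝ) ≤ r := by
    have h5 : 2 * (N : ℝ) ≤ 2 * ℓ / K := by
      rw [le_div_iff₀ hK0]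
      linarith
    linarith
  have hr20 : (20 : ℝ) ≤ r := by linarith
  have hr1 : 1 ≤ r := by
    have h5 : (1 : ℝ) ≤ r := by linarith
    exact_mod_cast h5
  have hr0 : (0 : ℝ) < r := by linarith
  have hrT : (r : ℝ) ≤ T := by
    have h5 : 2 * ℓ / K ≤ 2 * ℓ / 240 := div_le_div_of_nonneg_left (by positivity) (by norm_num) hK240
    linarith
  have hlogr : Real.log r ≤ LT := Real.log_le_log hr0 hrT
  -- the representation bound
  set R := r ^ (Nat.log z (M ^ r)) with hR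
  have hMr0 : M ^ r ≠ 0 := pow_ne_zero _ (by omega)
  have hRb : (R : ℝ) ≤ Real.exp (r * K / (2 + η)) := by
    have hk1 : (Nat.log z (M ^ r) : ℝ) * Z ≤ r * K := by
      have h5 := rgu_natLog hz2 hMr0
      push_cast at h5
      rwa [Real.log_pow] at h5
    rw [hR]
    push_cast
    have e1 : (r : ℝ) ^ (Nat.log z (M ^ r)) = Real.exp ((Nat.log z (M ^ r) : ℝ) * Real.log r) := by
      rw [← Real.log_pow, Real.exp_log (by positivity)]
    rw [e1]
    apply Real.exp_le_exp.mpr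
    have hk0 : (0 : ℝ) ≤ (Nat.log z (M ^ r) : ℝ) := Nat.cast_nonneg _
    calc (Nat.log z (M ^ r) : ℝ) * Real.log r
        ≤ (Nat.log z (M ^ r) : ℝ) * (Z / (2 + η)) := by
          refine mul_le_mul_of_nonneg_left (hlogr.trans ?_) hk0
          rw [le_div_iff₀ (by linarith)]
          linarith
      _ = (Nat.log z (M ^ r) : ℝ) * Z / (2 + η) := by ring
      _ ≤ r * K / (2 + η) := div_le_div_of_nonneg_right hk1 (by linarith)
  have hRep : Rep E r R := by
    intro n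
    have hprod : ∀ t ∈ (Fintype.piFinset fun _ : Fin r => E), 1 ≤ ∏ i, t i ∧ ∏ i, t i ≤ M ^ r := by
      intro t ht
      rw [Fintype.mem_piFinset] at ht
      constructor
      · exact Nat.one_le_iff_ne_zero.mpr (Finset.prod_ne_zero_iff.mpr fun i _ => by
          have := (hE _ (ht i)).1
          omega)
      · calc ∏ i, t i ≤ ∏ _i : Fin r, M := Finset.prod_le_prod' fun i _ => (hE _ (ht i)).2
          _ = M ^ r := by simp
    by_cases hn : 1 ≤ n ∧ n ≤ M ^ r
    · refine (Pool.Agent.ARU.card_rep_rough r z n hr1 hz2 hn.1 E hrough).trans ?_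
      rw [hR]
      exact Nat.pow_le_pow_right hr1 (Nat.log_mono_right hn.2)
    · have h5 : (Fintype.piFinset fun _ : Fin r => E).filter (fun t => ∏ i, t i = n) = ∅ := by
        rw [Finset.filter_eq_empty_iff]
        intro t ht h6
        rw [← h6] at hn
        exact hn (hprod t ht)
      rw [h5, Finset.card_empty]
      exact Nat.zero_le _
  -- the threshold
  set W : ℝ := ε * Nat.primeCounting x with hW
  have hW0 : 0 ≤ W := by positivity
  have hmain := hg s M r R E hr1 (fun m hm => (hE m hm).2) hRep W hW0 hbad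
  rw [← hℓdef] at hmain
  -- M ^ r ≤ x ^ 2 M
  have hMr : (M : ℝ) ^ r ≤ (x : ℝ) ^ 2 * M := by
    have h5 : (M : ℝ) ^ r = Real.exp (r * K) := by
      rw [hKdef, ← Real.log_pow, Real.exp_log (by positivity)]
    have h6 : (x : ℝ) ^ 2 * M = Real.exp (2 * ℓ + K) := by
      rw [Real.exp_add, two_mul, Real.exp_add, hexpl, hexpK]
      ring
    rw [h5, h6]
    exact Real.exp_le_exp.mpr hrL_hi
  have hMr1 : (1 : ℝ) ≤ (M : ℝ) ^ r := one_le_pow₀ hM1r
  have hfac : (x : ℝ) ^ 2 + 4 * Real.pi * ((M : ℝ) ^ r + 1) ≤ 28 * ((x : ℝ) ^ 2 * M) := by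
    have h5 : Real.pi < 3.15 := Real.pi_lt_d2
    have h6 : (x : ℝ) ^ 2 ≤ (x : ℝ) ^ 2 * M := le_mul_of_one_le_right (by positivity) hM1r
    have h7 : 4 * Real.pi * ((M : ℝ) ^ r + 1) ≤ 4 * 3.15 * (2 * ((x : ℝ) ^ 2 * M)) := by
      apply mul_le_mul (by linarith) (by linarith) (by positivity) (by norm_num)
    have h8 : (0 : ℝ) ≤ (x : ℝ) ^ 2 * M := by positivity
    calc (x : ℝ) ^ 2 + 4 * Real.pi * ((M : ℝ) ^ r + 1)
        ≤ (x : ℝ) ^ 2 * M + 4 * 3.15 * (2 * ((x : ℝ) ^ 2 * M)) := add_le_add h6 h7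
      _ = 26.2 * ((x : ℝ) ^ 2 * M) := by ring
      _ ≤ 28 * ((x : ℝ) ^ 2 * M) := mul_le_mul_of_nonneg_right (by norm_num) h8
  have hWlow : ε * x / (2 * ℓ) ≤ W := by
    rw [hW]
    calc ε * x / (2 * ℓ) = ε * (x / (2 * ℓ)) := by ring
      _ ≤ ε * (Nat.primeCounting x : ℝ) := mul_le_mul_of_nonneg_left hπ hε.le
  set G := 4 * ℓ ^ 2 * (1 + ℓ) ^ 2 / ε ^ 2 with hGdef
  have hG0 : 0 < G := by positivity
  have hGT : ((x : ℝ) * (1 + ℓ)) ^ 2 ≤ G * W ^ 2 := by
    have h5 : (ε * x / (2 * ℓ)) ^ 2 ≤ W ^ 2 := pow_le_pow_left₀ (by positivity) hWlow 2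
    calc ((x : ℝ) * (1 + ℓ)) ^ 2 = G * (ε * x / (2 * ℓ)) ^ 2 := by
          rw [hGdef]
          field_simp
          ring
      _ ≤ G * W ^ 2 := mul_le_mul_of_nonneg_left h5 hG0.le
  have hWpos : 0 < W := lt_of_lt_of_le (by positivity) hWlow
  -- conclusion for the r-th power
  have hpow : (E.card : ℝ) ^ r ≤ R * G ^ r * (56 * M * x) := by
    have h5 : (x : ℝ) * ((E.card : ℝ) * W ^ 2) ^ r ≤
        2 * R * (G * W ^ 2) ^ r * (28 * ((x : ℝ) ^ 2 * M)) := by
      refine hmain.trans ?_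
      refine mul_le_mul ?_ hfac (by positivity) (by positivity)
      exact mul_le_mul_of_nonneg_left (pow_le_pow_left₀ (by positivity) hGT r) (by positivity)
    rw [mul_pow (E.card : ℝ) (W ^ 2) r, mul_pow G (W ^ 2) r] at h5
    have h6 : 0 < (x : ℝ) * (W ^ 2) ^ r := by positivity
    have h7 : (E.card : ℝ) ^ r * ((x : ℝ) * (W ^ 2) ^ r) ≤
        (R * G ^ r * (56 * M * x)) * ((x : ℝ) * (W ^ 2) ^ r) := by
      calc (E.card : ℝ) ^ r * ((x : ℝ) * (W ^ 2) ^ r)
          = (x : ℝ) * ((E.card : ℝ) ^ r * (W ^ 2) ^ r) := by ring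
        _ ≤ 2 * R * (G ^ r * (W ^ 2) ^ r) * (28 * ((x : ℝ) ^ 2 * M)) := h5
        _ = _ := by ring
    exact le_of_mul_le_mul_right h7 h6
  have hηK : 120 * Z ≤ η * K := by
    calc 120 * Z ≤ η * N * Z := mul_le_mul_of_nonneg_right hNη' hZ0.le
      _ = η * (N * Z) := by ring
      _ ≤ η * K := mul_le_mul_of_nonneg_left hKN hη.le
  have hGb : G ≤ Real.exp (K * η / 48) := by
    have h5 : G ≤ T ^ 5 := by
      have h6 : 4 * ℓ ^ 2 * (1 + ℓ) ^ 2 ≤ 4 * T ^ 2 * (2 * T) ^ 2 := by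
        have h7 : 1 + ℓ ≤ 2 * T := by linarith
        gcongr
      calc G ≤ 4 * T ^ 2 * (2 * T) ^ 2 / ε ^ 2 := by
            rw [hGdef]
            gcongr
        _ = 16 / ε ^ 2 * T ^ 4 := by ring
        _ ≤ T * T ^ 4 := by gcongr
        _ = T ^ 5 := by ring
    have h8 : T ^ 5 = Real.exp (5 * LT) := by
      rw [← hexpT, ← Real.exp_nat_mul]
      norm_num
    rw [h8] at h5
    refine h5.trans (Real.exp_le_exp.mpr ?_)
    linarith
  have hlast : (56 : ℝ) * M * x ≤ Real.exp (K * η / 240 + K + ℓ) := by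
    calc (56 : ℝ) * M * x ≤ T * M * x := by gcongr
      _ = Real.exp (LT + K + ℓ) := by
          rw [Real.exp_add, Real.exp_add, hexpK, hexpl, hexpT]
      _ ≤ _ := by
          refine Real.exp_le_exp.mpr ?_
          linarith
  have hfin : (E.card : ℝ) ^ r ≤ ((M : ℝ) ^ (1 - η / 16)) ^ r := by
    refine hpow.trans ?_
    have h5 : ((M : ℝ) ^ (1 - η / 16)) ^ r = Real.exp (r * (K * (1 - η / 16))) := by
      rw [Real.rpow_def_of_pos hM0, ← Real.exp_nat_mul]
    have h6 : G ^ r ≤ Real.exp (r * (K * η / 48)) := by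
      rw [Real.exp_nat_mul]
      exact pow_le_pow_left₀ hG0.le hGb r
    calc (R : ℝ) * G ^ r * (56 * M * x)
        ≤ Real.exp (r * K / (2 + η)) * Real.exp (r * (K * η / 48)) *
            Real.exp (K * η / 240 + K + ℓ) := by
          refine mul_le_mul (mul_le_mul hRb h6 (by positivity) (by positivity)) hlast
            (by positivity) (by positivity)
      _ = Real.exp (r * K / (2 + η) + r * (K * η / 48) + (K * η / 240 + K + ℓ)) := by
          rw [← Real.exp_add, ← Real.exp_add]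
      _ ≤ ((M : ℝ) ^ (1 - η / 16)) ^ r := by
          rw [h5]
          refine Real.exp_le_exp.mpr ?_
          have hrK : 0 ≤ r * K := by positivity
          have h7 : r * K / (2 + η) ≤ r * K * (1 / 2 - η / 6) := by
            rw [div_le_iff₀ (by linarith)]
            have h8 : 1 ≤ (1 / 2 - η / 6) * (2 + η) := by nlinarith
            calc r * K = r * K * 1 := (mul_one _).symm
              _ ≤ r * K * ((1 / 2 - η / 6) * (2 + η)) := mul_le_mul_of_nonneg_left h8 hrK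
              _ = _ := by ring
          have h9 : 240 ≤ η * r := by
            calc (240 : ℝ) ≤ η * (2 * N) := by linarith
              _ ≤ η * r := mul_le_mul_of_nonneg_left hrN hη.le
          have h10 : 240 * K ≤ r * K * η := by
            calc 240 * K ≤ η * r * K := mul_le_mul_of_nonneg_right h9 hK0.le
              _ = _ := by ring
          have h11 : K * η ≤ r * K * η := by
            have h12 : K * η * 1 ≤ K * η * r := mul_le_mul_of_nonneg_left (by linarith) (by positivity)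
            linarith
          have e1 : r * (K * η / 48) = r * K * η / 48 := by ring
          have e2 : r * (K * (1 - η / 16)) = r * K - r * K * η / 16 := by ring
          have e3 : r * K * (1 / 2 - η / 6) = r * K / 2 - r * K * η / 6 := by ring
          have h13 : 0 ≤ r * K * η := by positivity
          rw [e1, e2]
          rw [e3] at h7
          linarith
  exact le_of_pow_le_pow_left₀ (by omega) (by positivity) hfin

end Pool.Agent.ARV
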